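import Mathlib

set_option autoImplicit false

/-!
# Fibre averages of random families: moments over the coefficients modulo a prime
-/

namespace Pool.Agent.L0h41.NG

open Finset

variable {p : ℕ} [Fact p.Prime] {k₁ k₂ : ℕ}

/-- the value at `t` of the polynomial with the coefficients `a` -/
def pv {R : Type*} [CommRing R] {k : ℕ} (a : Fin k → R) (t : R) : R := ∑ j, a j * t ^ (j : ℕ)

lemma pv_add {k : ℕ} (a a' : Fin k → ZMod p) (t : ZMod p) : pv (fun j => a j + a' j) t = pv a t + pv a' t := by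
  unfold pv
  rw [← sum_add_distrib]
  exact sum_congr rfl fun j _ => by ring

lemma pv_smul {k : ℕ} (u : ZMod p) (a : Fin k → ZMod p) (t : ZMod p) : pv (fun j => u * a j) t = u * pv a t := by
  unfold pv
  rw [mul_sum]
  exact sum_congr rfl fun j _ => by ring

lemma exists_cubic {k : ℕ} (hk : 4 ≤ k) (s t1 t2 t3 : ZMod p) (h1 : s ≠ t1) (h2 : s ≠ t2) (h3 : s ≠ t3) :
    ∃ a : Fin k → ZMod p, pv a t1 = 0 ∧ pv a t2 = 0 ∧ pv a t3 = 0 ∧ pv a s ≠ 0 := by
  obtain ⟨L, hL⟩ : ∃ L : Polynomial (ZMod p),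
    L = (Polynomial.X - Polynomial.C t1) * (Polynomial.X - Polynomial.C t2) * (Polynomial.X - Polynomial.C t3) := ⟨_, rfl⟩
  have hdeg : L.natDegree < k := by
    rw [hL]
    refine lt_of_le_of_lt Polynomial.natDegree_mul_le ?_
    refine lt_of_le_of_lt (add_le_add_left Polynomial.natDegree_mul_le _) ?_
    rw [Polynomial.natDegree_X_sub_C, Polynomial.natDegree_X_sub_C, Polynomial.natDegree_X_sub_C]
    omega
  have hev : ∀ t, pv (fun j : Fin k => L.coeff j) t = L.eval t := by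
    intro t
    unfold pv
    rw [Polynomial.eval_eq_sum_range' hdeg, Fin.sum_univ_eq_sum_range (fun j => L.coeff j * t ^ j) k]
  refine ⟨fun j => L.coeff j, ?_, ?_, ?_, ?_⟩
  · rw [hev, hL]
    simp
  · rw [hev, hL]
    simp
  · rw [hev, hL]
    simp
  · rw [hev, hL]
    simp [sub_ne_zero.2 h1, sub_ne_zero.2 h2, sub_ne_zero.2 h3]

/-- the first polynomial -/
def pA {R : Type*} [CommRing R] (c : Fin k₁ ⊕ Fin k₂ → R) (t : R) : R := pv (fun j => c (Sum.inl j)) t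

/-- the second polynomial -/
def pB {R : Type*} [CommRing R] (c : Fin k₁ ⊕ Fin k₂ → R) (t : R) : R := pv (fun j => c (Sum.inr j)) t

/-- the shift -/
def sh (LA : Fin k₁ → ZMod p) (LB : Fin k₂ → ZMod p) (u w : ZMod p) : Fin k₁ ⊕ Fin k₂ → ZMod p :=
  Sum.elim (fun j => u * LA j) (fun j => w * LB j)

lemma pA_sh (LA : Fin k₁ → ZMod p) (LB : Fin k₂ → ZMod p) (u w : ZMod p) (c : Fin k₁ ⊕ Fin k₂ → ZMod p) (t : ZMod p) :
    pA (c + sh LA LB u w) t = pA c t + u * pv LA t := by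
  unfold pA
  rw [← pv_smul, ← pv_add]
  rfl

lemma pB_sh (LA : Fin k₁ → ZMod p) (LB : Fin k₂ → ZMod p) (u w : ZMod p) (c : Fin k₁ ⊕ Fin k₂ → ZMod p) (t : ZMod p) :
    pB (c + sh LA LB u w) t = pB c t + w * pv LB t := by
  unfold pB
  rw [← pv_smul, ← pv_add]
  rfl

lemma sum_affine (h : ZMod p → ℝ) (α l : ZMod p) (hl : l ≠ 0) : ∑ u, h (α + u * l) = ∑ a, h a :=
  Equiv.sum_comp ((Equiv.mulRight₀ l hl).trans (Equiv.addLeft α)) h

/-- independence of the values at one point from functions which are invariant under the shifts -/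
theorem shift_sum (s : ZMod p) (LA : Fin k₁ → ZMod p) (LB : Fin k₂ → ZMod p) (hA : pv LA s ≠ 0) (hB : pv LB s ≠ 0)
    (h : ZMod p → ZMod p → ℝ) (Y : (Fin k₁ ⊕ Fin k₂ → ZMod p) → ℝ)
    (hY : ∀ c u w, Y (c + sh LA LB u w) = Y c) :
    (p : ℝ) ^ 2 * ∑ c, h (pA c s) (pB c s) * Y c = (∑ a, ∑ b, h a b) * ∑ c, Y c := by
  have h1 : ∀ u w : ZMod p, ∑ c, h (pA c s) (pB c s) * Y c =
      ∑ c, h (pA c s + u * pv LA s) (pB c s + w * pv LB s) * Y c := by
    intro u w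
    rw [← Equiv.sum_comp (Equiv.addRight (sh LA LB u w))]
    refine sum_congr rfl fun c _ => ?_
    rw [Equiv.coe_addRight, pA_sh, pB_sh, hY]
  have h2 : (p : ℝ) ^ 2 * ∑ c, h (pA c s) (pB c s) * Y c = ∑ u : ZMod p, ∑ w : ZMod p,
      ∑ c, h (pA c s + u * pv LA s) (pB c s + w * pv LB s) * Y c := by
    rw [sum_congr rfl fun u _ => sum_congr rfl fun w _ => (h1 u w).symm]
    rw [sum_const, sum_const, card_univ, ZMod.card, smul_smul, nsmul_eq_mul]
    push_cast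
    ring
  rw [h2]
  calc ∑ u : ZMod p, ∑ w : ZMod p, ∑ c, h (pA c s + u * pv LA s) (pB c s + w * pv LB s) * Y c =
      ∑ c, Y c * ∑ u : ZMod p, ∑ w : ZMod p, h (pA c s + u * pv LA s) (pB c s + w * pv LB s) := by
        rw [sum_congr rfl fun u _ => sum_comm, sum_comm]
        refine sum_congr rfl fun c _ => ?_
        rw [mul_sum]
        refine sum_congr rfl fun u _ => ?_
        rw [mul_sum]
        exact sum_congr rfl fun w _ => mul_comm _ _
    _ = ∑ c, Y c * ∑ a, ∑ b, h a b := by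
        refine sum_congr rfl fun c _ => ?_
        congr 1
        rw [sum_affine (fun a => ∑ w : ZMod p, h a (pB c s + w * pv LB s)) _ _ hA]
        exact sum_congr rfl fun a _ => sum_affine (fun b => h a b) _ _ hB
    _ = _ := by rw [← sum_mul, mul_comm]

/-- the random variables -/
def XX (f : ZMod p → ZMod p → ZMod p → ℝ) (t : ZMod p) (c : Fin k₁ ⊕ Fin k₂ → ZMod p) : ℝ := f t (pA c t) (pB c t)

lemma XX_sh (f : ZMod p → ZMod p → ZMod p → ℝ) {t : ZMod p} {LA : Fin k₁ → ZMod p} {LB : Fin k₂ → ZMod p}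
    (hA : pv LA t = 0) (hB : pv LB t = 0) (c : Fin k₁ ⊕ Fin k₂ → ZMod p) (u w : ZMod p) :
    XX f t (c + sh LA LB u w) = XX f t c := by
  unfold XX
  rw [pA_sh, pB_sh, hA, hB, mul_zero, mul_zero, add_zero, add_zero]

/-- a product with one variable at a different point -/
theorem one_off (hk₁ : 4 ≤ k₁) (hk₂ : 4 ≤ k₂) (f g1 g2 g3 : ZMod p → ZMod p → ZMod p → ℝ) (s t1 t2 t3 : ZMod p)
    (h1 : s ≠ t1) (h2 : s ≠ t2) (h3 : s ≠ t3) :
    (p : ℝ) ^ 2 * ∑ c : Fin k₁ ⊕ Fin k₂ → ZMod p, XX f s c * (XX g1 t1 c * XX g2 t2 c * XX g3 t3 c) =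
      (∑ a, ∑ b, f s a b) * ∑ c : Fin k₁ ⊕ Fin k₂ → ZMod p, XX g1 t1 c * XX g2 t2 c * XX g3 t3 c := by
  obtain ⟨LA, a1, a2, a3, a4⟩ := exists_cubic hk₁ s t1 t2 t3 h1 h2 h3
  obtain ⟨LB, b1, b2, b3, b4⟩ := exists_cubic hk₂ s t1 t2 t3 h1 h2 h3
  exact shift_sum s LA LB a4 b4 (f s) (fun c => XX g1 t1 c * XX g2 t2 c * XX g3 t3 c) (fun c u w => by
    rw [XX_sh g1 a1 b1, XX_sh g2 a2 b2, XX_sh g3 a3 b3])

/-- the number of the vectors -/
noncomputable def NN (p k₁ k₂ : ℕ) : ℝ := (p : ℝ) ^ (k₁ + k₂)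

lemma sum_one : ∑ _c : Fin k₁ ⊕ Fin k₂ → ZMod p, (1 : ℝ) = NN p k₁ k₂ := by
  rw [sum_const, card_univ, Fintype.card_fun, ZMod.card, Fintype.card_sum, Fintype.card_fin, Fintype.card_fin,
    nsmul_eq_mul, mul_one]
  unfold NN
  push_cast
  rfl

theorem single (hk₁ : 4 ≤ k₁) (hk₂ : 4 ≤ k₂) (f : ZMod p → ZMod p → ZMod p → ℝ) (s : ZMod p) :
    (p : ℝ) ^ 2 * ∑ c : Fin k₁ ⊕ Fin k₂ → ZMod p, XX f s c = (∑ a, ∑ b, f s a b) * NN p k₁ k₂ := by
  obtain ⟨t, ht⟩ : ∃ t : ZMod p, s ≠ t := ⟨s + 1, by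
    intro h
    have : (1 : ZMod p) = 0 := by linear_combination -h
    exact one_ne_zero this⟩
  have h := one_off hk₁ hk₂ f (fun _ _ _ => 1) (fun _ _ _ => 1) (fun _ _ _ => 1) s t t t ht ht ht
  unfold XX at h ⊢
  simp only [mul_one] at h
  rw [sum_one] at h
  exact h

theorem double (hk₁ : 4 ≤ k₁) (hk₂ : 4 ≤ k₂) (f g : ZMod p → ZMod p → ZMod p → ℝ) (s t : ZMod p) (hst : s ≠ t) :
    (p : ℝ) ^ 2 * ∑ c : Fin k₁ ⊕ Fin k₂ → ZMod p, XX f s c * XX g t c =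
      (∑ a, ∑ b, f s a b) * ∑ c : Fin k₁ ⊕ Fin k₂ → ZMod p, XX g t c := by
  have h := one_off hk₁ hk₂ f g (fun _ _ _ => 1) (fun _ _ _ => 1) s t t t hst hst hst
  unfold XX at h ⊢
  simp only [mul_one] at h
  exact h

variable {f : ZMod p → ZMod p → ZMod p → ℝ}

/-- the second moment -/
theorem second (hk₁ : 4 ≤ k₁) (hk₂ : 4 ≤ k₂) (h0 : ∀ t, ∑ a, ∑ b, f t a b = 0) :
    (p : ℝ) ^ 2 * ∑ c : Fin k₁ ⊕ Fin k₂ → ZMod p, (∑ t, XX f t c) ^ 2 =
      (∑ t, ∑ a, ∑ b, f t a b ^ 2) * NN p k₁ k₂ := by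
  have hp : (p : ℝ) ^ 2 ≠ 0 := by
    have := (Fact.out : p.Prime).pos
    positivity
  have e1 : ∑ c : Fin k₁ ⊕ Fin k₂ → ZMod p, (∑ t, XX f t c) ^ 2 =
      ∑ s, ∑ t, ∑ c : Fin k₁ ⊕ Fin k₂ → ZMod p, XX f s c * XX f t c := by
    rw [sum_congr rfl fun c _ => by rw [sq, sum_mul_sum], sum_comm]
    exact sum_congr rfl fun s _ => sum_comm
  rw [e1, mul_sum, sum_mul]
  refine sum_congr rfl fun s _ => ?_
  rw [sum_eq_single s]
  · rw [← single hk₁ hk₂ (fun t a b => f t a b ^ 2) s]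
    congr 1
    refine sum_congr rfl fun c _ => ?_
    unfold XX
    ring
  · intro t _ hts
    have h := double hk₁ hk₂ f f s t (fun h => hts h.symm)
    rw [h0, zero_mul] at h
    exact (mul_eq_zero.1 h).resolve_left hp
  · intro h
    exact absurd (mem_univ _) h

/-- the fourth moment -/
theorem fourth (hk₁ : 4 ≤ k₁) (hk₂ : 4 ≤ k₂) (h0 : ∀ t, ∑ a, ∑ b, f t a b = 0) (K : ℝ)
    (h2 : ∀ t, ∑ a, ∑ b, f t a b ^ 2 ≤ K) (hb : ∀ t a b, |f t a b| ≤ p) (hK : K ≤ (p : ℝ) ^ 3) :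
    ∑ c : Fin k₁ ⊕ Fin k₂ → ZMod p, (∑ t, XX f t c) ^ 4 ≤ 6 * (p : ℝ) ^ 4 * NN p k₁ k₂ := by
  classical
  have hp0 : (0 : ℝ) < p := by exact_mod_cast (Fact.out : p.Prime).pos
  have hN : 0 ≤ NN p k₁ k₂ := by unfold NN; positivity
  have hp : (p : ℝ) ^ 2 ≠ 0 := by positivity
  -- the pair moments
  obtain ⟨Q, hQ⟩ : ∃ Q : ZMod p → ZMod p → ℝ, ∀ s t, Q s t =
    ∑ c : Fin k₁ ⊕ Fin k₂ → ZMod p, XX f s c ^ 2 * XX f t c ^ 2 := ⟨_, fun _ _ => rfl⟩
  have hQ0 : ∀ s t, 0 ≤ Q s t := fun s t => by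
    rw [hQ]
    exact sum_nonneg fun c _ => by positivity
  have hsq : ∀ s, ∑ c : Fin k₁ ⊕ Fin k₂ → ZMod p, XX f s c ^ 2 ≤ p * NN p k₁ k₂ := by
    intro s
    have h := single hk₁ hk₂ (fun t a b => f t a b ^ 2) s
    have e : ∑ c : Fin k₁ ⊕ Fin k₂ → ZMod p, XX (fun t a b => f t a b ^ 2) s c =
      ∑ c : Fin k₁ ⊕ Fin k₂ → ZMod p, XX f s c ^ 2 := rfl
    rw [e] at h
    have h3 : (p : ℝ) ^ 2 * ∑ c : Fin k₁ ⊕ Fin k₂ → ZMod p, XX f s c ^ 2 ≤ (p : ℝ) ^ 2 * (p * NN p k₁ k₂) := by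
      rw [h]
      calc _ ≤ (p : ℝ) ^ 3 * NN p k₁ k₂ := mul_le_mul_of_nonneg_right ((h2 s).trans hK) hN
        _ = _ := by ring
    exact le_of_mul_le_mul_left h3 (by positivity)
  have hQd : ∀ s, Q s s ≤ (p : ℝ) ^ 3 * NN p k₁ k₂ := by
    intro s
    rw [hQ]
    calc _ ≤ ∑ c : Fin k₁ ⊕ Fin k₂ → ZMod p, (p : ℝ) ^ 2 * XX f s c ^ 2 := by
          refine sum_le_sum fun c _ => mul_le_mul_of_nonneg_right ?_ (sq_nonneg _)
          rw [← sq_abs]
          exact pow_le_pow_left₀ (abs_nonneg _) (hb _ _ _) 2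
      _ = (p : ℝ) ^ 2 * ∑ c : Fin k₁ ⊕ Fin k₂ → ZMod p, XX f s c ^ 2 := by rw [mul_sum]
      _ ≤ (p : ℝ) ^ 2 * (p * NN p k₁ k₂) := mul_le_mul_of_nonneg_left (hsq s) (by positivity)
      _ = _ := by ring
  have hQo : ∀ s t, s ≠ t → Q s t ≤ (p : ℝ) ^ 2 * NN p k₁ k₂ := by
    intro s t hst
    have h := double hk₁ hk₂ (fun t a b => f t a b ^ 2) (fun t a b => f t a b ^ 2) s t hst
    have e : ∑ c : Fin k₁ ⊕ Fin k₂ → ZMod p, XX (fun t a b => f t a b ^ 2) s c * XX (fun t a b => f t a b ^ 2) t c =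
      Q s t := by rw [hQ]; rfl
    have e2 : ∑ c : Fin k₁ ⊕ Fin k₂ → ZMod p, XX (fun t a b => f t a b ^ 2) t c =
      ∑ c : Fin k₁ ⊕ Fin k₂ → ZMod p, XX f t c ^ 2 := rfl
    rw [e, e2] at h
    have h3 : (p : ℝ) ^ 2 * Q s t ≤ (p : ℝ) ^ 2 * ((p : ℝ) ^ 2 * NN p k₁ k₂) := by
      rw [h]
      calc _ ≤ (p : ℝ) ^ 3 * (p * NN p k₁ k₂) :=
            mul_le_mul ((h2 s).trans hK) (hsq t) (sum_nonneg fun c _ => sq_nonneg _) (by positivity)
        _ = _ := by ring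
    exact le_of_mul_le_mul_left h3 (by positivity)
  -- the terms
  obtain ⟨E, hE⟩ : ∃ E : ZMod p → ZMod p → ZMod p → ZMod p → ℝ, ∀ t1 t2 t3 t4, E t1 t2 t3 t4 =
    ∑ c : Fin k₁ ⊕ Fin k₂ → ZMod p, XX f t1 c * (XX f t2 c * XX f t3 c * XX f t4 c) := ⟨_, fun _ _ _ _ => rfl⟩
  have hE0 : ∀ s t1 t2 t3, s ≠ t1 → s ≠ t2 → s ≠ t3 → E s t1 t2 t3 = 0 := by
    intro s t1 t2 t3 h1 h2 h3
    have h := one_off hk₁ hk₂ f f f f s t1 t2 t3 h1 h2 h3
    rw [h0, zero_mul, ← hE] at h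
    exact (mul_eq_zero.1 h).resolve_left hp
  have hterm : ∀ t1 t2 t3 t4, E t1 t2 t3 t4 ≤ (if t1 = t2 ∧ t3 = t4 then Q t1 t3 else 0) +
      (if t1 = t3 ∧ t2 = t4 then Q t1 t2 else 0) + (if t1 = t4 ∧ t2 = t3 then Q t1 t2 else 0) := by
    intro t1 t2 t3 t4
    have n1 : 0 ≤ (if t1 = t2 ∧ t3 = t4 then Q t1 t3 else 0) := by split_ifs; exacts [hQ0 _ _, le_rfl]
    have n2 : 0 ≤ (if t1 = t3 ∧ t2 = t4 then Q t1 t2 else 0) := by split_ifs; exacts [hQ0 _ _, le_rfl]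
    have n3 : 0 ≤ (if t1 = t4 ∧ t2 = t3 then Q t1 t2 else 0) := by split_ifs; exacts [hQ0 _ _, le_rfl]
    by_cases h12 : t1 = t2
    · by_cases h34 : t3 = t4
      · rw [if_pos ⟨h12, h34⟩] at n1 ⊢
        have e : E t1 t2 t3 t4 = Q t1 t3 := by
          rw [hE, hQ, ← h12, ← h34]
          exact sum_congr rfl fun c _ => by ring
        linarith
      · -- t1 = t2, t3 ≠ t4
        by_cases h13 : t3 = t1
        · -- t4 is alone
          have e : E t1 t2 t3 t4 = E t4 t1 t2 t3 := by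
            rw [hE, hE]
            exact sum_congr rfl fun c _ => by ring
          have h41 : t4 ≠ t1 := fun h => h34 (by rw [h, h13])
          rw [e, hE0 t4 t1 t2 t3 h41 (by rw [← h12]; exact h41) (fun h => h34 h.symm)]
          linarith
        · -- t3 is alone
          have e : E t1 t2 t3 t4 = E t3 t1 t2 t4 := by
            rw [hE, hE]
            exact sum_congr rfl fun c _ => by ring
          rw [e, hE0 t3 t1 t2 t4 h13 (by rw [← h12]; exact h13) h34]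
          linarith
    · by_cases h13 : t1 = t3
      · by_cases h24 : t2 = t4
        · rw [if_pos (⟨h13, h24⟩ : t1 = t3 ∧ t2 = t4)] at n2 ⊢
          have e : E t1 t2 t3 t4 = Q t1 t2 := by
            rw [hE, hQ, ← h13, ← h24]
            exact sum_congr rfl fun c _ => by ring
          linarith
        · -- t2 is alone: t2 ≠ t1, t2 ≠ t3 = t1, t2 ≠ t4
          have e : E t1 t2 t3 t4 = E t2 t1 t3 t4 := by
            rw [hE, hE]
            exact sum_congr rfl fun c _ => by ring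
          have h21 : t2 ≠ t1 := fun h => h12 h.symm
          rw [e, hE0 t2 t1 t3 t4 h21 (by rw [← h13]; exact h21) h24]
          linarith
      · by_cases h14 : t1 = t4
        · by_cases h23 : t2 = t3
          · rw [if_pos (⟨h14, h23⟩ : t1 = t4 ∧ t2 = t3)] at n3 ⊢
            have e : E t1 t2 t3 t4 = Q t1 t2 := by
              rw [hE, hQ, ← h14, ← h23]
              exact sum_congr rfl fun c _ => by ring
            linarith
          · have e : E t1 t2 t3 t4 = E t2 t1 t3 t4 := by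
              rw [hE, hE]
              exact sum_congr rfl fun c _ => by ring
            have h21 : t2 ≠ t1 := fun h => h12 h.symm
            rw [e, hE0 t2 t1 t3 t4 h21 h23 (by rw [← h14]; exact h21)]
            linarith
        · rw [hE0 t1 t2 t3 t4 h12 h13 h14]
          linarith
  have e1 : ∑ c : Fin k₁ ⊕ Fin k₂ → ZMod p, (∑ t, XX f t c) ^ 4 = ∑ t1, ∑ t2, ∑ t3, ∑ t4, E t1 t2 t3 t4 := by
    have h1 : ∀ c : Fin k₁ ⊕ Fin k₂ → ZMod p, (∑ t, XX f t c) ^ 4 =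
        ∑ t1, ∑ t2, ∑ t3, ∑ t4, XX f t1 c * (XX f t2 c * XX f t3 c * XX f t4 c) := by
      intro c
      have h2 : (∑ t, XX f t c) ^ 4 = (∑ t, XX f t c) * ((∑ t, XX f t c) * ((∑ t, XX f t c) * (∑ t, XX f t c))) := by ring
      rw [h2, sum_mul]
      refine sum_congr rfl fun t1 _ => ?_
      rw [sum_mul, mul_sum]
      refine sum_congr rfl fun t2 _ => ?_
      rw [sum_mul, mul_sum, mul_sum]
      refine sum_congr rfl fun t3 _ => ?_
      rw [mul_sum, mul_sum, mul_sum]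
      exact sum_congr rfl fun t4 _ => by ring
    rw [sum_congr rfl fun c _ => h1 c, sum_comm]
    refine sum_congr rfl fun t1 _ => ?_
    rw [sum_comm]
    refine sum_congr rfl fun t2 _ => ?_
    rw [sum_comm]
    refine sum_congr rfl fun t3 _ => ?_
    rw [sum_comm]
    exact sum_congr rfl fun t4 _ => (hE _ _ _ _).symm
  rw [e1]
  have hQs : ∑ s, ∑ t, Q s t ≤ 2 * (p : ℝ) ^ 4 * NN p k₁ k₂ := by
    have h1 : ∀ s t, Q s t ≤ (if s = t then (p : ℝ) ^ 3 * NN p k₁ k₂ else 0) + (p : ℝ) ^ 2 * NN p k₁ k₂ := by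
      intro s t
      split_ifs with h
      · rw [← h]
        have := hQd s
        have h2 : 0 ≤ (p : ℝ) ^ 2 * NN p k₁ k₂ := by positivity
        linarith
      · rw [zero_add]
        exact hQo s t h
    refine (sum_le_sum fun s _ => sum_le_sum fun t _ => h1 s t).trans (le_of_eq ?_)
    simp only [sum_add_distrib, sum_ite_eq, mem_univ, if_true, sum_const, card_univ, ZMod.card, nsmul_eq_mul]
    ring
  refine (sum_le_sum fun t1 _ => sum_le_sum fun t2 _ => sum_le_sum fun t3 _ => sum_le_sum fun t4 _ =>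
    hterm t1 t2 t3 t4).trans ?_
  have s1 : ∑ t1 : ZMod p, ∑ t2 : ZMod p, ∑ t3 : ZMod p, ∑ t4 : ZMod p,
      (if t1 = t2 ∧ t3 = t4 then Q t1 t3 else 0) = ∑ s, ∑ t, Q s t := by
    refine sum_congr rfl fun t1 _ => ?_
    rw [sum_eq_single t1]
    · refine sum_congr rfl fun t3 _ => ?_
      rw [sum_eq_single t3]
      · simp
      · intro b _ hb
        rw [if_neg (fun h => hb h.2.symm)]
      · intro h; exact absurd (mem_univ _) h
    · intro b _ hb
      exact sum_eq_zero fun t3 _ => sum_eq_zero fun t4 _ => if_neg (fun h => hb h.1.symm)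
    · intro h; exact absurd (mem_univ _) h
  have s2 : ∑ t1 : ZMod p, ∑ t2 : ZMod p, ∑ t3 : ZMod p, ∑ t4 : ZMod p,
      (if t1 = t3 ∧ t2 = t4 then Q t1 t2 else 0) = ∑ s, ∑ t, Q s t := by
    refine sum_congr rfl fun t1 _ => sum_congr rfl fun t2 _ => ?_
    rw [sum_eq_single t1]
    · rw [sum_eq_single t2]
      · simp
      · intro b _ hb
        rw [if_neg (fun h => hb h.2.symm)]
      · intro h; exact absurd (mem_univ _) h
    · intro b _ hb
      exact sum_eq_zero fun t4 _ => if_neg (fun h => hb h.1.symm)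
    · intro h; exact absurd (mem_univ _) h
  have s3 : ∑ t1 : ZMod p, ∑ t2 : ZMod p, ∑ t3 : ZMod p, ∑ t4 : ZMod p,
      (if t1 = t4 ∧ t2 = t3 then Q t1 t2 else 0) = ∑ s, ∑ t, Q s t := by
    refine sum_congr rfl fun t1 _ => sum_congr rfl fun t2 _ => ?_
    rw [sum_eq_single t2]
    · rw [sum_eq_single t1]
      · simp
      · intro b _ hb
        rw [if_neg (fun h => hb h.1.symm)]
      · intro h; exact absurd (mem_univ _) h
    · intro b _ hb
      exact sum_eq_zero fun t4 _ => if_neg (fun h => hb h.2.symm)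
    · intro h; exact absurd (mem_univ _) h
  simp only [sum_add_distrib]
  rw [s1, s2, s3]
  linarith

end Pool.Agent.L0h41.NG
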