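import Pool.Agent.L0h41.NG.A

set_option autoImplicit false

/-!
# Fibre averages of random families: the sums of the quadratic character
-/

namespace Pool.Agent.L0h41.NG

open Finset

section

variable {p : ℕ} [Fact p.Prime]

/-- the quadratic character -/
noncomputable def chi (z : ZMod p) : ℝ := ((quadraticChar (ZMod p) z : ℤ) : ℝ)

lemma chi_zero : chi (0 : ZMod p) = 0 := by
  unfold chi
  rw [quadraticChar_zero]
  simp

lemma chi_sum (hp2 : p ≠ 2) : ∑ z : ZMod p, chi z = 0 := by
  unfold chi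
  rw [← Int.cast_sum, quadraticChar_sum_zero (by rwa [ZMod.ringChar_zmod_n])]
  simp

lemma chi_sq (z : ZMod p) : chi z ^ 2 = if z = 0 then 0 else 1 := by
  unfold chi
  split_ifs with h
  · rw [h, quadraticChar_zero]
    simp
  · have := quadraticChar_sq_one h
    exact_mod_cast this

lemma chi_abs (z : ZMod p) : |chi z| ≤ 1 := by
  have h := chi_sq z
  have h1 : chi z ^ 2 ≤ 1 := by
    rw [h]
    split_ifs <;> norm_num
  exact abs_le_one_iff_mul_self_le_one.2 (by rwa [← sq])

lemma chi_one_sq {z : ZMod p} (hz : z ≠ 0) : chi (z ^ 2) = 1 := by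
  unfold chi
  rw [quadraticChar_sq_one' hz]
  simp

lemma sum_sq_chi : ∑ z : ZMod p, chi z ^ 2 = (p : ℝ) - 1 := by
  classical
  have h1 : ∀ z : ZMod p, chi z ^ 2 = 1 - if z = 0 then 1 else 0 := by
    intro z
    rw [chi_sq]
    split_ifs <;> norm_num
  rw [sum_congr rfl fun z _ => h1 z, sum_sub_distrib, sum_ite_eq' univ (0 : ZMod p) (fun _ => (1 : ℝ)), if_pos (mem_univ _),
    sum_const, card_univ, ZMod.card, nsmul_eq_mul, mul_one]

lemma sum_chi_aff (hp2 : p ≠ 2) (g q : ZMod p) (hq : q ≠ 0) : ∑ a : ZMod p, chi (g + a * q) = 0 := by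
  rw [sum_affine chi g q hq]
  exact chi_sum hp2

lemma sum_chi_sq_aff (g q : ZMod p) (hq : q ≠ 0) : ∑ a : ZMod p, chi (g + a * q) ^ 2 = (p : ℝ) - 1 := by
  rw [sum_affine (fun z => chi z ^ 2) g q hq]
  exact sum_sq_chi

variable (G P : ZMod p → ZMod p → ZMod p)

/-- the varying part of the trace -/
noncomputable def ff (t a b : ZMod p) : ℝ :=
  -∑ x : ZMod p, if P x t = 0 then 0 else chi (G x t + P x t * (a + b * x))

/-- the constant part of the trace -/
noncomputable def mm (t : ZMod p) : ℝ := -∑ x : ZMod p, if P x t = 0 then chi (G x t) else 0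

/-- the trace -/
noncomputable def tt (t a b : ZMod p) : ℝ := -∑ x : ZMod p, chi (G x t + P x t * (a + b * x))

lemma tt_eq (t a b : ZMod p) : tt G P t a b = ff G P t a b + mm G P t := by
  unfold tt ff mm
  rw [← neg_add, ← sum_add_distrib]
  congr 1
  refine sum_congr rfl fun x _ => ?_
  split_ifs with h
  · rw [h, zero_mul, add_zero, zero_add]
  · rw [add_zero]

lemma ff_abs (t a b : ZMod p) : |ff G P t a b| ≤ p := by
  unfold ff
  rw [abs_neg]
  refine (abs_sum_le_sum_abs _ _).trans ?_
  have h : ∀ x ∈ (univ : Finset (ZMod p)), |if P x t = 0 then 0 else chi (G x t + P x t * (a + b * x))| ≤ (1 : ℝ) := by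
    intro x _
    split_ifs
    · simp
    · exact chi_abs _
  refine (sum_le_sum h).trans (le_of_eq ?_)
  rw [sum_const, card_univ, ZMod.card, nsmul_eq_mul, mul_one]

lemma ff_zero (hp2 : p ≠ 2) (t : ZMod p) : ∑ a, ∑ b, ff G P t a b = 0 := by
  unfold ff
  rw [sum_comm]
  simp only [sum_neg_distrib]
  rw [neg_eq_zero]
  refine sum_eq_zero fun b _ => ?_
  rw [sum_comm]
  refine sum_eq_zero fun x _ => ?_
  split_ifs with h
  · simp
  · have e : ∀ a : ZMod p, G x t + P x t * (a + b * x) = (G x t + P x t * (b * x)) + a * P x t := fun a => by ring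
    rw [sum_congr rfl fun a _ => by rw [e a]]
    exact sum_chi_aff hp2 _ _ h

/-- the number of the points which are not on the fixed part -/
noncomputable def nn (t : ZMod p) : ℝ := ∑ x : ZMod p, if P x t = 0 then 0 else 1

lemma nn_le (t : ZMod p) : nn P t ≤ p := by
  unfold nn
  have h : ∀ x ∈ (univ : Finset (ZMod p)), (if P x t = 0 then (0 : ℝ) else 1) ≤ (1 : ℝ) := by
    intro x _
    split_ifs <;> norm_num
  refine (sum_le_sum h).trans (le_of_eq ?_)
  rw [sum_const, card_univ, ZMod.card, nsmul_eq_mul, mul_one]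

lemma ff_sq (hp2 : p ≠ 2) (t : ZMod p) : ∑ a, ∑ b, ff G P t a b ^ 2 = (p : ℝ) * (p - 1) * nn P t := by
  have e1 : ∀ a b, ff G P t a b ^ 2 = ∑ x : ZMod p, ∑ y : ZMod p,
      (if P x t = 0 then 0 else chi (G x t + P x t * (a + b * x))) *
      (if P y t = 0 then 0 else chi (G y t + P y t * (a + b * y))) := by
    intro a b
    unfold ff
    rw [neg_sq, sq, sum_mul_sum]
  have e2 : ∑ a, ∑ b, ff G P t a b ^ 2 = ∑ x : ZMod p, ∑ y : ZMod p, ∑ a : ZMod p, ∑ b : ZMod p,
      (if P x t = 0 then 0 else chi (G x t + P x t * (a + b * x))) *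
      (if P y t = 0 then 0 else chi (G y t + P y t * (a + b * y))) := by
    rw [sum_congr rfl fun a _ => sum_congr rfl fun b _ => e1 a b]
    rw [sum_congr rfl fun a _ => sum_comm, sum_comm]
    refine sum_congr rfl fun x _ => ?_
    rw [sum_congr rfl fun a _ => sum_comm, sum_comm]
  rw [e2]
  unfold nn
  rw [mul_sum]
  refine sum_congr rfl fun x _ => ?_
  rw [sum_eq_single x]
  · split_ifs with h
    · simp
    · have e3 : ∀ b a : ZMod p, G x t + P x t * (a + b * x) = (G x t + P x t * (b * x)) + a * P x t := fun b a => by ring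
      rw [sum_comm]
      have e4 : ∀ b : ZMod p, ∑ a : ZMod p, chi (G x t + P x t * (a + b * x)) * chi (G x t + P x t * (a + b * x)) =
          (p : ℝ) - 1 := by
        intro b
        rw [← sum_chi_sq_aff (G x t + P x t * (b * x)) (P x t) h]
        refine sum_congr rfl fun a _ => ?_
        rw [e3 b a, sq]
      rw [sum_congr rfl fun b _ => e4 b, sum_const, card_univ, ZMod.card, nsmul_eq_mul, mul_one]
  · intro y _ hyx
    by_cases h1 : P x t = 0
    · simp [h1]
    · by_cases h2 : P y t = 0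
      · simp [h2]
      · simp only [if_neg h1, if_neg h2]
        have hyx' : y - x ≠ 0 := sub_ne_zero.2 hyx
        -- substitute `a = a' - b x`
        have e5 : ∑ a : ZMod p, ∑ b : ZMod p, chi (G x t + P x t * (a + b * x)) * chi (G y t + P y t * (a + b * y)) =
            ∑ b : ZMod p, ∑ a : ZMod p, chi (G x t + P x t * a) * chi (G y t + P y t * (a + b * (y - x))) := by
          rw [sum_comm]
          refine sum_congr rfl fun b _ => ?_
          rw [← Equiv.sum_comp (Equiv.addRight (b * x))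
            (fun a => chi (G x t + P x t * a) * chi (G y t + P y t * (a + b * (y - x))))]
          refine sum_congr rfl fun a _ => ?_
          simp only [Equiv.coe_addRight]
          congr 2
          congr 1
          ring
        rw [e5, sum_comm]
        refine sum_eq_zero fun a _ => ?_
        rw [← mul_sum]
        have e6 : ∀ b : ZMod p, G y t + P y t * (a + b * (y - x)) = (G y t + P y t * a) + b * (P y t * (y - x)) :=
          fun b => by ring
        rw [sum_congr rfl fun b _ => by rw [e6 b], sum_chi_aff hp2 _ _ (mul_ne_zero h2 hyx'), mul_zero]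
  · intro h
    exact absurd (mem_univ _) h

/-- the number of the points -/
lemma card_points (hp2 : p ≠ 2) (F : ZMod p → ZMod p) :
    ((((univ : Finset (ZMod p × ZMod p)).filter (fun z => z.2 ^ 2 = F z.1)).card : ℕ) : ℝ) = p + ∑ x : ZMod p, chi (F x) := by
  classical
  rw [card_filter, ← univ_product_univ, sum_product]
  push_cast
  have h1 : ∀ x : ZMod p, ∑ y : ZMod p, (if y ^ 2 = F x then (1 : ℝ) else 0) = 1 + chi (F x) := by
    intro x
    have h2 := quadraticChar_card_sqrts (F := ZMod p) (by rwa [ZMod.ringChar_zmod_n]) (F x)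
    unfold chi
    have h3 : ∑ y : ZMod p, (if y ^ 2 = F x then (1 : ℝ) else 0) = (({y : ZMod p | y ^ 2 = F x}.toFinset.card : ℤ) : ℝ) := by
      rw [sum_boole]
      push_cast
      congr 2
      ext y
      simp
    rw [h3, h2]
    push_cast
    ring
  rw [sum_congr rfl fun x _ => h1 x, sum_add_distrib, sum_const, card_univ, ZMod.card, nsmul_eq_mul, mul_one]

end

/-- the number of the solutions modulo `p` of `y² = F x` -/
lemma points_link (p : ℕ) (hp : p.Prime) (F : ℤ → ℤ) (F' : ZMod p → ZMod p) (hF : ∀ x : ℤ, ((F x : ℤ) : ZMod p) = F' x) :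
    ((range p ×ˢ range p).filter (fun xy : ℕ × ℕ => (p : ℤ) ∣ (xy.2 : ℤ) ^ 2 - F xy.1)).card =
      ((@univ (ZMod p × ZMod p) (@instFintypeProd _ _ (@ZMod.fintype p ⟨hp.ne_zero⟩) (@ZMod.fintype p ⟨hp.ne_zero⟩))).filter
        (fun z => z.2 ^ 2 = F' z.1)).card := by
  have : Fact p.Prime := ⟨hp⟩
  have hiff : ∀ x y : ℕ, (p : ℤ) ∣ (y : ℤ) ^ 2 - F x ↔ (y : ZMod p) ^ 2 = F' (x : ZMod p) := by
    intro x y
    rw [← ZMod.intCast_zmod_eq_zero_iff_dvd]
    have h := hF x
    push_cast at h ⊢
    rw [h, sub_eq_zero]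
  refine card_bij (fun xy _ => ((xy.1 : ZMod p), (xy.2 : ZMod p))) ?_ ?_ ?_
  · intro xy hxy
    rw [mem_filter, mem_product, hiff] at hxy
    rw [mem_filter]
    exact ⟨mem_univ _, hxy.2⟩
  · intro a ha b hb hab
    rw [mem_filter, mem_product, mem_range, mem_range] at ha hb
    rw [Prod.mk.injEq] at hab
    have e1 := congrArg ZMod.val hab.1
    have e2 := congrArg ZMod.val hab.2
    rw [ZMod.val_natCast_of_lt ha.1.1, ZMod.val_natCast_of_lt hb.1.1] at e1
    rw [ZMod.val_natCast_of_lt ha.1.2, ZMod.val_natCast_of_lt hb.1.2] at e2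
    exact Prod.ext e1 e2
  · intro z hz
    rw [mem_filter] at hz
    refine ⟨(z.1.val, z.2.val), ?_, ?_⟩
    · rw [mem_filter, mem_product, hiff]
      refine ⟨⟨mem_range.2 (ZMod.val_lt _), mem_range.2 (ZMod.val_lt _)⟩, ?_⟩
      simp only [ZMod.natCast_val, ZMod.cast_id', id_eq]
      exact hz.2
    · simp

end Pool.Agent.L0h41.NG
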