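import Pool.Agent.L0h41.NG.B
import Pool.Agent.L0h41.CL.D

set_option autoImplicit false

/-!
# Fibre averages of random families: mean, variance and fourth moment
-/

namespace Pool.Agent.L0h41.NG

open Finset
open Pool.Agent.N368.TS

lemma bx_sum {ι : Type} [Fintype ι] [DecidableEq ι] (p : ℕ) [Fact p.Prime] (F : (ι → ZMod p) → ℝ) :
    ∑ t ∈ bx ι p, F (fun i => ((t i : ℕ) : ZMod p)) = ∑ c : ι → ZMod p, F c := by
  refine sum_bij (fun t _ i => ((t i : ℕ) : ZMod p)) (fun _ _ => mem_univ _) ?_ ?_ (fun _ _ => rfl)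
  · intro t ht t' ht' h
    rw [mem_bx] at ht ht'
    funext i
    have e := congrArg ZMod.val (congrFun h i)
    rwa [ZMod.val_natCast_of_lt (ht i), ZMod.val_natCast_of_lt (ht' i)] at e
  · intro c _
    refine ⟨fun i => (c i).val, ?_, ?_⟩
    · rw [mem_bx]
      exact fun i => ZMod.val_lt _
    · funext i
      simp

/-- the reduction of a vector -/
def rv (p : ℕ) {ι : Type} (c : ι → ℤ) : ι → ZMod p := fun i => ((c i : ℤ) : ZMod p)

lemma av_rv {ι : Type} [Fintype ι] [DecidableEq ι] (p : ℕ) [Fact p.Prime] (F : (ι → ZMod p) → ℝ) :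
    av p (fun c : ι → ℤ => F (rv p c)) = (∑ c : ι → ZMod p, F c) / (p : ℝ) ^ Fintype.card ι := by
  unfold av rv
  rw [← bx_sum]
  congr 1
  refine sum_congr rfl fun t _ => ?_
  show F (fun i => (((t i : ℕ) : ℤ) : ZMod p)) = F (fun i => ((t i : ℕ) : ZMod p))
  congr 1
  funext i
  rw [Int.cast_natCast]

lemma rv_congr (p : ℕ) {ι : Type} {c d : ι → ℤ} (h : ∀ i, (p : ℤ) ∣ c i - d i) : rv p c = rv p d := by
  funext i
  unfold rv
  rw [ZMod.intCast_eq_intCast_iff_dvd_sub]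
  have := h i
  rw [← Int.neg_sub]
  exact (dvd_neg).2 this

/-- functions of two integers which are compatible with all congruences -/
def Per2 (G : ℤ → ℤ → ℤ) : Prop :=
  ∀ (p : ℕ) (x x' t t' : ℤ), (p : ℤ) ∣ x - x' → (p : ℤ) ∣ t - t' → (p : ℤ) ∣ G x t - G x' t'

/-- the reduction of a function of two integers -/
noncomputable def red (p : ℕ) (G : ℤ → ℤ → ℤ) (x t : ZMod p) : ZMod p :=
  ((G ((x.val : ℕ) : ℤ) ((t.val : ℕ) : ℤ) : ℤ) : ZMod p)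

lemma val_sub (p : ℕ) [Fact p.Prime] (x : ℤ) : (p : ℤ) ∣ ((((x : ℤ) : ZMod p).val : ℕ) : ℤ) - x := by
  rw [← ZMod.intCast_zmod_eq_zero_iff_dvd]
  push_cast
  rw [ZMod.natCast_val, ZMod.cast_id', id_eq, sub_self]

lemma red_eq (p : ℕ) [Fact p.Prime] {G : ℤ → ℤ → ℤ} (hG : Per2 G) (x t : ℤ) :
    ((G x t : ℤ) : ZMod p) = red p G ((x : ℤ) : ZMod p) ((t : ℤ) : ZMod p) := by
  unfold red
  rw [ZMod.intCast_eq_intCast_iff_dvd_sub]
  exact hG p _ _ _ _ (val_sub p x) (val_sub p t)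

variable {k₁ k₂ : ℕ}

/-- the right side of the equation of the fibre -/
def fib (G P : ℤ → ℤ → ℤ) (c : Fin k₁ ⊕ Fin k₂ → ℤ) (x t : ℤ) : ℤ := G x t + P x t * (pA c t + pB c t * x)

lemma pv_cast (p : ℕ) {k : ℕ} (a : Fin k → ℤ) (t : ℤ) :
    ((pv a t : ℤ) : ZMod p) = pv (fun j => ((a j : ℤ) : ZMod p)) ((t : ℤ) : ZMod p) := by
  unfold pv
  push_cast
  rfl

lemma pA_cast (p : ℕ) (c : Fin k₁ ⊕ Fin k₂ → ℤ) (t : ℤ) : ((pA c t : ℤ) : ZMod p) = pA (rv p c) ((t : ℤ) : ZMod p) := by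
  unfold pA
  rw [pv_cast]
  rfl

lemma pB_cast (p : ℕ) (c : Fin k₁ ⊕ Fin k₂ → ℤ) (t : ℤ) : ((pB c t : ℤ) : ZMod p) = pB (rv p c) ((t : ℤ) : ZMod p) := by
  unfold pB
  rw [pv_cast]
  rfl

/-- the number of the solutions modulo `p` -/
def pts (p : ℕ) (G P : ℤ → ℤ → ℤ) (c : Fin k₁ ⊕ Fin k₂ → ℤ) (t : ℤ) : ℕ :=
  ((range p ×ˢ range p).filter (fun xy : ℕ × ℕ => (p : ℤ) ∣ (xy.2 : ℤ) ^ 2 - fib G P c xy.1 t)).card

/-- the fibre average -/
noncomputable def nag (G P : ℤ → ℤ → ℤ) (p : ℕ) (c : Fin k₁ ⊕ Fin k₂ → ℤ) : ℝ :=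
  (∑ t ∈ range p, ((p : ℝ) - pts p G P c t)) / p

lemma zsum (p : ℕ) [Fact p.Prime] (F : ZMod p → ℝ) : ∑ t ∈ range p, F ((t : ℕ) : ZMod p) = ∑ t : ZMod p, F t := by
  refine sum_bij (fun t _ => ((t : ℕ) : ZMod p)) (fun _ _ => mem_univ _) ?_ ?_ (fun _ _ => rfl)
  · intro t ht t' ht' h
    rw [mem_range] at ht ht'
    have e := congrArg ZMod.val h
    rwa [ZMod.val_natCast_of_lt ht, ZMod.val_natCast_of_lt ht'] at e
  · intro c _
    exact ⟨c.val, mem_range.2 (ZMod.val_lt _), by simp⟩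

lemma nag_eq (p : ℕ) [Fact p.Prime] (hp2 : p ≠ 2) {G P : ℤ → ℤ → ℤ} (hG : Per2 G) (hP : Per2 P)
    (c : Fin k₁ ⊕ Fin k₂ → ℤ) :
    nag G P p c = (∑ t : ZMod p, tt (red p G) (red p P) t (pA (rv p c) t) (pB (rv p c) t)) / p := by
  unfold nag
  rw [← zsum]
  congr 1
  refine sum_congr rfl fun t _ => ?_
  have h1 : ∀ x : ℤ, ((fib G P c x (t : ℤ) : ℤ) : ZMod p) = red p G (x : ZMod p) ((t : ℕ) : ZMod p) +
      red p P (x : ZMod p) ((t : ℕ) : ZMod p) * (pA (rv p c) ((t : ℕ) : ZMod p) + pB (rv p c) ((t : ℕ) : ZMod p) * (x : ZMod p)) := by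
    intro x
    unfold fib
    rw [Int.cast_add, Int.cast_mul, Int.cast_add, Int.cast_mul, red_eq p hG, red_eq p hP, pA_cast, pB_cast, Int.cast_natCast]
  have h2 := points_link p (Fact.out) (fun x => fib G P c x (t : ℤ)) (fun x : ZMod p => red p G x ((t : ℕ) : ZMod p) +
      red p P x ((t : ℕ) : ZMod p) * (pA (rv p c) ((t : ℕ) : ZMod p) + pB (rv p c) ((t : ℕ) : ZMod p) * x)) h1
  unfold pts
  rw [h2]
  have h3 := card_points hp2 (fun x : ZMod p => red p G x ((t : ℕ) : ZMod p) +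
      red p P x ((t : ℕ) : ZMod p) * (pA (rv p c) ((t : ℕ) : ZMod p) + pB (rv p c) ((t : ℕ) : ZMod p) * x))
  have h4 : ∀ a b : ℝ, (p : ℝ) - a = b ↔ a = p - b := fun a b => ⟨fun h => by linarith, fun h => by linarith⟩
  rw [h4]
  unfold tt
  rw [sub_neg_eq_add]
  convert h3 using 2

/-- the centered fibre average -/
noncomputable def bet (G P : ℤ → ℤ → ℤ) (p : ℕ) (c : Fin k₁ ⊕ Fin k₂ → ℤ) : ℝ :=
  nag G P p c - av p (nag (k₁ := k₁) (k₂ := k₂) G P p)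

lemma cardι : Fintype.card (Fin k₁ ⊕ Fin k₂) = k₁ + k₂ := by
  rw [Fintype.card_sum, Fintype.card_fin, Fintype.card_fin]

lemma av_nag (hk₁ : 4 ≤ k₁) (hk₂ : 4 ≤ k₂) (p : ℕ) [Fact p.Prime] (hp2 : p ≠ 2) {G P : ℤ → ℤ → ℤ} (hG : Per2 G) (hP : Per2 P) :
    av p (nag (k₁ := k₁) (k₂ := k₂) G P p) = (∑ t : ZMod p, mm (red p G) (red p P) t) / p := by
  have hp0 : (0 : ℝ) < p := by exact_mod_cast (Fact.out : p.Prime).pos
  have e1 : nag (k₁ := k₁) (k₂ := k₂) G P p = fun c => (fun c' : Fin k₁ ⊕ Fin k₂ → ZMod p =>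
      (∑ t : ZMod p, tt (red p G) (red p P) t (pA c' t) (pB c' t)) / p) (rv p c) := by
    funext c
    exact nag_eq p hp2 hG hP c
  rw [e1]
  refine (av_rv p (fun c' : Fin k₁ ⊕ Fin k₂ → ZMod p =>
      (∑ t : ZMod p, tt (red p G) (red p P) t (pA c' t) (pB c' t)) / (p : ℝ))).trans ?_
  rw [cardι]
  have e2 : ∑ c' : Fin k₁ ⊕ Fin k₂ → ZMod p, (∑ t : ZMod p, tt (red p G) (red p P) t (pA c' t) (pB c' t)) / (p : ℝ) =
      ((∑ t : ZMod p, mm (red p G) (red p P) t) / p) * NN p k₁ k₂ := by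
    rw [← sum_div, div_mul_eq_mul_div]
    congr 1
    rw [sum_comm, Finset.sum_mul]
    refine sum_congr rfl fun t _ => ?_
    have h1 := single hk₁ hk₂ (ff (red p G) (red p P)) t
    rw [ff_zero _ _ hp2, zero_mul] at h1
    have h2 := (mul_eq_zero.1 h1).resolve_left (by positivity)
    unfold XX at h2
    rw [sum_congr rfl fun c' _ => tt_eq (red p G) (red p P) t (pA c' t) (pB c' t), sum_add_distrib, h2, zero_add,
      ← sum_one, mul_sum]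
    exact sum_congr rfl fun _ _ => (mul_one _).symm
  rw [e2]
  unfold NN
  rw [mul_div_assoc, div_self (by positivity), mul_one]

lemma bet_eq (hk₁ : 4 ≤ k₁) (hk₂ : 4 ≤ k₂) (p : ℕ) [Fact p.Prime] (hp2 : p ≠ 2) {G P : ℤ → ℤ → ℤ} (hG : Per2 G) (hP : Per2 P)
    (c : Fin k₁ ⊕ Fin k₂ → ℤ) : bet G P p c = (∑ t : ZMod p, XX (ff (red p G) (red p P)) t (rv p c)) / p := by
  unfold bet
  rw [av_nag hk₁ hk₂ p hp2 hG hP, nag_eq p hp2 hG hP, ← sub_div, ← sum_sub_distrib]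
  congr 1
  refine sum_congr rfl fun t _ => ?_
  rw [tt_eq]
  unfold XX
  ring

lemma fib_congr {p : ℕ} {G P : ℤ → ℤ → ℤ} {c d : Fin k₁ ⊕ Fin k₂ → ℤ} (h : ∀ i, (p : ℤ) ∣ c i - d i) (x t : ℤ) :
    (p : ℤ) ∣ fib G P c x t - fib G P d x t := by
  have hr := rv_congr p h
  rw [← ZMod.intCast_zmod_eq_zero_iff_dvd]
  unfold fib
  push_cast
  rw [pA_cast, pA_cast, pB_cast, pB_cast, hr]
  ring

lemma nag_per (G P : ℤ → ℤ → ℤ) (p : ℕ) : PerV (nag (k₁ := k₁) (k₂ := k₂) G P p) p := by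
  intro c d h
  unfold nag
  congr 1
  refine sum_congr rfl fun t _ => ?_
  congr 2
  unfold pts
  congr 1
  apply filter_congr
  intro xy _
  have h1 := fib_congr (G := G) (P := P) h xy.1 t
  have e : ((xy.2 : ℤ) ^ 2 - fib G P c xy.1 t) - ((xy.2 : ℤ) ^ 2 - fib G P d xy.1 t) =
      -(fib G P c xy.1 t - fib G P d xy.1 t) := by ring
  exact dvd_iff_dvd_of_dvd_sub (by rw [e]; exact (dvd_neg).2 h1)

lemma bet_per (G P : ℤ → ℤ → ℤ) (p : ℕ) : PerV (bet (k₁ := k₁) (k₂ := k₂) G P p) p := by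
  intro c d h
  unfold bet
  rw [nag_per G P p c d h]

lemma bet_mean (G P : ℤ → ℤ → ℤ) {p : ℕ} (hp : p.Prime) : av p (bet (k₁ := k₁) (k₂ := k₂) G P p) = 0 := av_sub_av hp.pos _

lemma nag_two (G P : ℤ → ℤ → ℤ) (c : Fin k₁ ⊕ Fin k₂ → ℤ) : nag G P 2 c = 0 := by
  unfold nag
  rw [div_eq_zero_iff]
  left
  refine sum_eq_zero fun t _ => ?_
  have h : pts 2 G P c t = 2 := by
    unfold pts
    have h1 : (range 2 ×ˢ range 2).filter (fun xy : ℕ × ℕ => ((2 : ℕ) : ℤ) ∣ (xy.2 : ℤ) ^ 2 - fib G P c xy.1 t) =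
        (range 2).image (fun x : ℕ => (x, (fib G P c x t % 2).toNat)) := by
      ext ⟨x, y⟩
      rw [mem_filter, mem_product, mem_range, mem_range, mem_image]
      constructor
      · rintro ⟨⟨hx, hy⟩, h⟩
        refine ⟨x, mem_range.2 hx, ?_⟩
        simp only at hx hy h
        rw [Prod.mk.injEq]
        refine ⟨rfl, ?_⟩
        have hy' : y = 0 ∨ y = 1 := by omega
        rcases hy' with rfl | rfl
        · push_cast at h
          omega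
        · push_cast at h
          omega
      · rintro ⟨x', hx', h⟩
        rw [mem_range] at hx'
        rw [Prod.mk.injEq] at h
        obtain ⟨rfl, h⟩ := h
        have h0 : 0 ≤ fib G P c x' t % 2 := Int.emod_nonneg _ (by norm_num)
        have h2 : fib G P c x' t % 2 < 2 := Int.emod_lt_of_pos _ (by norm_num)
        refine ⟨⟨hx', by simp only; omega⟩, ?_⟩
        simp only
        have hy' : y = 0 ∨ y = 1 := by omega
        rcases hy' with rfl | rfl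
        · push_cast
          omega
        · push_cast
          omega
    rw [h1, card_image_of_injective _ (fun a b hab => by
      simp only [Prod.mk.injEq] at hab
      exact hab.1), card_range]
  rw [h]
  simp

lemma bet_two (G P : ℤ → ℤ → ℤ) (c : Fin k₁ ⊕ Fin k₂ → ℤ) : bet G P 2 c = 0 := by
  unfold bet
  have e : nag (k₁ := k₁) (k₂ := k₂) G P 2 = fun _ => 0 := funext fun c => nag_two G P c
  rw [nag_two, e]
  unfold av
  simp

lemma bet_sq (hk₁ : 4 ≤ k₁) (hk₂ : 4 ≤ k₂) (p : ℕ) [Fact p.Prime] (hp2 : p ≠ 2) {G P : ℤ → ℤ → ℤ} (hG : Per2 G) (hP : Per2 P) :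
    av p (fun c : Fin k₁ ⊕ Fin k₂ → ℤ => bet G P p c ^ 2) = ((p : ℝ) - 1) * (∑ t : ZMod p, nn (red p P) t) / (p : ℝ) ^ 3 := by
  have hp0 : (0 : ℝ) < p := by exact_mod_cast (Fact.out : p.Prime).pos
  have e1 : (fun c : Fin k₁ ⊕ Fin k₂ → ℤ => bet G P p c ^ 2) = fun c => (fun c' : Fin k₁ ⊕ Fin k₂ → ZMod p =>
      (∑ t : ZMod p, XX (ff (red p G) (red p P)) t c') ^ 2 / (p : ℝ) ^ 2) (rv p c) := by
    funext c
    rw [bet_eq hk₁ hk₂ p hp2 hG hP, div_pow]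
  rw [e1]
  refine (av_rv p (fun c' : Fin k₁ ⊕ Fin k₂ → ZMod p =>
      (∑ t : ZMod p, XX (ff (red p G) (red p P)) t c') ^ 2 / (p : ℝ) ^ 2)).trans ?_
  rw [cardι, ← sum_div]
  have h := second (k₁ := k₁) (k₂ := k₂) (f := ff (red p G) (red p P)) hk₁ hk₂ (fun t => ff_zero _ _ hp2 t)
  have e2 : ∑ t : ZMod p, ∑ a, ∑ b, ff (red p G) (red p P) t a b ^ 2 = (p : ℝ) * (p - 1) * ∑ t : ZMod p, nn (red p P) t := by
    rw [mul_sum]
    exact sum_congr rfl fun t _ => ff_sq _ _ hp2 t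
  rw [e2] at h
  have hN : NN p k₁ k₂ = (p : ℝ) ^ (k₁ + k₂) := rfl
  rw [hN] at h
  have e3 : ∑ c' : Fin k₁ ⊕ Fin k₂ → ZMod p, (∑ t : ZMod p, XX (ff (red p G) (red p P)) t c') ^ 2 =
      (p : ℝ) * (p - 1) * (∑ t : ZMod p, nn (red p P) t) * (p : ℝ) ^ (k₁ + k₂) / (p : ℝ) ^ 2 := by
    rw [eq_div_iff (by positivity)]
    linarith
  rw [e3]
  field_simp

lemma bet_sq_le (hk₁ : 4 ≤ k₁) (hk₂ : 4 ≤ k₂) (p : ℕ) (hp : p.Prime) {G P : ℤ → ℤ → ℤ} (hG : Per2 G) (hP : Per2 P) :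
    av p (fun c : Fin k₁ ⊕ Fin k₂ → ℤ => bet G P p c ^ 2) ≤ 1 := by
  have : Fact p.Prime := ⟨hp⟩
  have hp1 : (1 : ℝ) ≤ p := by exact_mod_cast hp.one_lt.le
  have hp0 : (0 : ℝ) < p := by linarith
  by_cases hp2 : p = 2
  · subst hp2
    have e : (fun c : Fin k₁ ⊕ Fin k₂ → ℤ => bet G P 2 c ^ 2) = fun _ => 0 := by
      funext c
      rw [bet_two]
      norm_num
    rw [e]
    unfold av
    simp
  · rw [bet_sq hk₁ hk₂ p hp2 hG hP, div_le_one (by positivity)]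
    have h1 : ∑ t : ZMod p, nn (red p P) t ≤ (p : ℝ) * p := by
      refine (sum_le_sum fun t _ => nn_le _ t).trans (le_of_eq ?_)
      rw [sum_const, card_univ, ZMod.card, nsmul_eq_mul]
    calc ((p : ℝ) - 1) * ∑ t : ZMod p, nn (red p P) t ≤ (p - 1) * ((p : ℝ) * p) :=
          mul_le_mul_of_nonneg_left h1 (by linarith)
      _ ≤ (p : ℝ) ^ 3 := by nlinarith

lemma bet_fourth (hk₁ : 4 ≤ k₁) (hk₂ : 4 ≤ k₂) (p : ℕ) (hp : p.Prime) {G P : ℤ → ℤ → ℤ} (hG : Per2 G) (hP : Per2 P) :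
    av p (fun c : Fin k₁ ⊕ Fin k₂ → ℤ => bet G P p c ^ 4) ≤ 6 := by
  have : Fact p.Prime := ⟨hp⟩
  have hp1 : (1 : ℝ) ≤ p := by exact_mod_cast hp.one_lt.le
  have hp0 : (0 : ℝ) < p := by linarith
  by_cases hp2 : p = 2
  · subst hp2
    have e : (fun c : Fin k₁ ⊕ Fin k₂ → ℤ => bet G P 2 c ^ 4) = fun _ => 0 := by
      funext c
      rw [bet_two]
      norm_num
    rw [e]
    unfold av
    simp
  · have e1 : (fun c : Fin k₁ ⊕ Fin k₂ → ℤ => bet G P p c ^ 4) = fun c => (fun c' : Fin k₁ ⊕ Fin k₂ → ZMod p =>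
        (∑ t : ZMod p, XX (ff (red p G) (red p P)) t c') ^ 4 / (p : ℝ) ^ 4) (rv p c) := by
      funext c
      rw [bet_eq hk₁ hk₂ p hp2 hG hP, div_pow]
    rw [e1]
    refine (le_of_eq (av_rv p (fun c' : Fin k₁ ⊕ Fin k₂ → ZMod p =>
        (∑ t : ZMod p, XX (ff (red p G) (red p P)) t c') ^ 4 / (p : ℝ) ^ 4))).trans ?_
    rw [cardι, ← sum_div]
    have h := fourth (k₁ := k₁) (k₂ := k₂) (f := ff (red p G) (red p P)) hk₁ hk₂ (fun t => ff_zero _ _ hp2 t)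
      ((p : ℝ) ^ 3) (fun t => by
        rw [ff_sq _ _ hp2 t]
        calc (p : ℝ) * (p - 1) * nn (red p P) t ≤ (p : ℝ) * (p - 1) * p :=
              mul_le_mul_of_nonneg_left (nn_le _ t) (mul_nonneg hp0.le (by linarith))
          _ ≤ (p : ℝ) ^ 3 := by nlinarith) (fun t a b => ff_abs _ _ t a b) le_rfl
    have hN : NN p k₁ k₂ = (p : ℝ) ^ (k₁ + k₂) := rfl
    rw [hN] at h
    rw [div_div, div_le_iff₀ (by positivity)]
    linarith

lemma bet_sq_ge (hk₁ : 4 ≤ k₁) (hk₂ : 4 ≤ k₂) (p : ℕ) (hp : p.Prime) (hp2 : p ≠ 2) {G P : ℤ → ℤ → ℤ} (hG : Per2 G)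
    (hP : Per2 P) (r : ℕ) (hr : ∀ (_h : Fact p.Prime) (t : ZMod p), (p : ℝ) - r ≤ nn (red p P) t) :
    1 - ((r : ℝ) + 1) / p ≤ av p (fun c : Fin k₁ ⊕ Fin k₂ → ℤ => bet G P p c ^ 2) := by
  have hf : Fact p.Prime := ⟨hp⟩
  have hp1 : (1 : ℝ) ≤ p := by exact_mod_cast hp.one_lt.le
  have hp0 : (0 : ℝ) < p := by linarith
  rw [bet_sq hk₁ hk₂ p hp2 hG hP, le_div_iff₀ (by positivity)]
  have h1 : (p : ℝ) * (p - r) ≤ ∑ t : ZMod p, nn (red p P) t := by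
    refine le_trans (le_of_eq ?_) (sum_le_sum fun t _ => hr hf t)
    rw [sum_const, card_univ, ZMod.card, nsmul_eq_mul]
  have h2 : ((p : ℝ) - 1) * ((p : ℝ) * (p - r)) ≤ (p - 1) * ∑ t : ZMod p, nn (red p P) t :=
    mul_le_mul_of_nonneg_left h1 (by linarith)
  refine le_trans ?_ h2
  have e : (1 - ((r : ℝ) + 1) / p) * (p : ℝ) ^ 3 = (p : ℝ) ^ 3 - (r + 1) * (p : ℝ) ^ 2 := by
    field_simp
  rw [e]
  have : (0 : ℝ) ≤ r * p := by positivity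
  nlinarith

end Pool.Agent.L0h41.NG
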