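import Pool.Agent.L0h41.NG.C
import Pool.Agent.L0h41.CL.C

set_option autoImplicit false

/-!
# Fibre averages of random families: boxes, second moments over a family, perturbation
-/

namespace Pool.Agent.L0h41.NG

open Finset MeasureTheory ProbabilityTheory
open Pool.Agent.N368.TS Pool.Agent.L0h41.CL

/-- the second moment over a family -/
theorem second_mom {ι : Type} [Fintype ι] [DecidableEq ι] {Ω : Type} {S : Finset Ω} {v : Ω → ι → ℤ} {R η : ℝ}
    (hS : Eqd S v R η) (hη : 0 ≤ η) (P : Finset ℕ) (ψ : ℕ → (ι → ℤ) → ℝ) (x : ℕ) (B : ℝ) (hB : 0 < B)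
    (hP : ∀ p ∈ P, p.Prime ∧ p ≤ x) (hper : ∀ p ∈ P, PerV (ψ p) p) (hb : ∀ p ∈ P, ∀ c, |ψ p c| ≤ B)
    (h0 : ∀ p ∈ P, av p (ψ p) = 0) (hR : (x : ℝ) ^ 2 ≤ R) :
    ∑ n ∈ S, (∑ p ∈ P, ψ p (v n)) ^ 2 ≤
      S.card * (∑ p ∈ P, av p (fun c => ψ p c ^ 2) + B ^ 2 * η * (x : ℝ) ^ 4) := by
  classical
  have hS0 : (0 : ℝ) ≤ S.card := Nat.cast_nonneg _
  have hx0 : (0 : ℝ) ≤ x := Nat.cast_nonneg _
  have hcard : (P.card : ℝ) ≤ x := by
    have h1 : P ⊆ Icc 1 x := by
      intro p hp
      rw [mem_Icc]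
      exact ⟨(hP p hp).1.one_lt.le, (hP p hp).2⟩
    have h2 := card_le_card h1
    rw [Nat.card_Icc] at h2
    exact_mod_cast (by omega : P.card ≤ x)
  have e1 : ∑ n ∈ S, (∑ p ∈ P, ψ p (v n)) ^ 2 = ∑ p ∈ P, ∑ q ∈ P, ∑ n ∈ S, ψ p (v n) * ψ q (v n) := by
    rw [sum_congr rfl fun n _ => by rw [sq, sum_mul_sum], sum_comm]
    exact sum_congr rfl fun p _ => sum_comm
  have hterm : ∀ p ∈ P, ∀ q ∈ P, ∑ n ∈ S, ψ p (v n) * ψ q (v n) ≤
      (if p = q then S.card * av p (fun c => ψ p c ^ 2) else 0) + S.card * (B ^ 2 * η * (x : ℝ) ^ 2) := by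
    intro p hp q hq
    have hpp := (hP p hp).1
    have hqq := (hP q hq).1
    have hpx : (p : ℝ) ≤ x := by exact_mod_cast (hP p hp).2
    have hqx : (q : ℝ) ≤ x := by exact_mod_cast (hP q hq).2
    have hp1 : (1 : ℝ) ≤ p := by exact_mod_cast hpp.one_lt.le
    have hq1 : (1 : ℝ) ≤ q := by exact_mod_cast hqq.one_lt.le
    split_ifs with h
    · subst h
      obtain ⟨m, hm⟩ : ∃ m, m = av p (fun c => ψ p c ^ 2) := ⟨_, rfl⟩
      have hsq : ∀ c, ψ p c ^ 2 ≤ B ^ 2 := fun c => by
        rw [← sq_abs]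
        exact pow_le_pow_left₀ (abs_nonneg _) (hb p hp c) 2
      have hm0 : 0 ≤ m := by
        rw [hm]
        exact av_nonneg fun c => sq_nonneg _
      have hm1 : m ≤ B ^ 2 := by
        rw [hm]
        refine le_trans (le_abs_self _) (av_abs hpp.pos fun c => ?_)
        rw [abs_of_nonneg (sq_nonneg _)]
        exact hsq c
      have hB2 : 0 < B ^ 2 := by positivity
      have h1 := hS p hpp.one_lt.le (by
        refine le_trans ?_ hR
        nlinarith) (fun c => (ψ p c ^ 2 - m) / B ^ 2) (by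
          intro c d hcd
          simp only
          rw [hper p hp c d hcd]) (by
          intro c
          rw [abs_div, abs_of_pos hB2, div_le_one hB2, abs_le]
          have := hsq c
          constructor <;> nlinarith [sq_nonneg (ψ p c)]) (by
          have e : (fun c => (ψ p c ^ 2 - m) / B ^ 2) = fun c => (1 / B ^ 2) * (ψ p c ^ 2 - m) := by
            funext c
            ring
          rw [e, av_smul, hm, av_sub_av hpp.pos, mul_zero])
      have e2 : ∑ n ∈ S, (ψ p (v n) ^ 2 - m) / B ^ 2 = (∑ n ∈ S, ψ p (v n) * ψ p (v n) - S.card * m) / B ^ 2 := by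
        rw [← sum_div, sum_sub_distrib, sum_const, nsmul_eq_mul]
        congr 2
        exact sum_congr rfl fun n _ => sq _
      rw [e2, abs_div, abs_of_pos hB2, div_le_iff₀ hB2] at h1
      have h2 := (le_abs_self _).trans h1
      rw [← hm]
      have h3 : (p : ℝ) * η * S.card * B ^ 2 ≤ S.card * (B ^ 2 * η * (x : ℝ) ^ 2) := by
        have h4 : (p : ℝ) ≤ (x : ℝ) ^ 2 := by nlinarith
        calc (p : ℝ) * η * S.card * B ^ 2 ≤ (x : ℝ) ^ 2 * η * S.card * B ^ 2 := by gcongr
          _ = _ := by ring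
      linarith
    · rw [zero_add]
      have hcop : p.Coprime q := (Nat.coprime_primes hpp hqq).2 h
      have hB2 : 0 < B ^ 2 := by positivity
      have hper1 : PerV (ψ p) (p * q) := (hper p hp).of_dvd (Dvd.intro _ rfl)
      have hper2 : PerV (ψ q) (p * q) := (hper q hq).of_dvd (Dvd.intro_left _ rfl)
      have h1 := hS (p * q) (Nat.mul_pos hpp.pos hqq.pos) (by
        refine le_trans ?_ hR
        push_cast
        nlinarith) (fun c => (1 / B ^ 2) * (ψ p c * ψ q c)) (by
          intro c d hcd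
          simp only
          rw [hper1 c d hcd, hper2 c d hcd]) (by
          intro c
          rw [abs_mul, abs_of_pos (by positivity : 0 < 1 / B ^ 2), abs_mul, one_div, inv_mul_le_iff₀ hB2, mul_one]
          calc |ψ p c| * |ψ q c| ≤ B * B := mul_le_mul (hb p hp c) (hb q hq c) (abs_nonneg _) hB.le
            _ = B ^ 2 := by ring) (by
          rw [av_smul, av_mul hpp.pos hqq.pos hcop (hper p hp) (hper q hq), h0 p hp, zero_mul, mul_zero])
      rw [← mul_sum, abs_mul, abs_of_pos (by positivity : 0 < 1 / B ^ 2), one_div, inv_mul_le_iff₀ hB2] at h1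
      refine ((le_abs_self _).trans h1).trans ?_
      push_cast
      calc B ^ 2 * ((p : ℝ) * q * η * S.card) ≤ B ^ 2 * ((x : ℝ) * x * η * S.card) := by gcongr
        _ = _ := by ring
  rw [e1]
  refine (sum_le_sum fun p hp => sum_le_sum fun q hq => hterm p hp q hq).trans ?_
  have e3 : ∑ p ∈ P, ∑ q ∈ P, ((if p = q then (S.card : ℝ) * av p (fun c => ψ p c ^ 2) else 0) +
      S.card * (B ^ 2 * η * (x : ℝ) ^ 2)) = S.card * ∑ p ∈ P, av p (fun c => ψ p c ^ 2) +
      (P.card : ℝ) ^ 2 * (S.card * (B ^ 2 * η * (x : ℝ) ^ 2)) := by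
    simp only [sum_add_distrib, sum_const, nsmul_eq_mul]
    rw [mul_sum]
    have e4 : ∑ p ∈ P, ∑ q ∈ P, (if p = q then (S.card : ℝ) * av p (fun c => ψ p c ^ 2) else 0) =
        ∑ p ∈ P, (S.card : ℝ) * av p (fun c => ψ p c ^ 2) := by
      refine sum_congr rfl fun p hp => ?_
      rw [sum_ite_eq, if_pos hp]
    rw [e4]
    ring
  rw [e3, mul_add]
  have h5 : (P.card : ℝ) ^ 2 ≤ (x : ℝ) ^ 2 := pow_le_pow_left₀ (Nat.cast_nonneg _) hcard 2
  have h6 : 0 ≤ (S.card : ℝ) * (B ^ 2 * η * (x : ℝ) ^ 2) := by positivity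
  have h7 : (P.card : ℝ) ^ 2 * (S.card * (B ^ 2 * η * (x : ℝ) ^ 2)) ≤ (x : ℝ) ^ 2 * (S.card * (B ^ 2 * η * (x : ℝ) ^ 2)) :=
    mul_le_mul_of_nonneg_right h5 h6
  have e5 : (x : ℝ) ^ 2 * (S.card * (B ^ 2 * η * (x : ℝ) ^ 2)) = S.card * (B ^ 2 * η * (x : ℝ) ^ 4) := by ring
  linarith

/-- the normal distribution function is Lipschitz continuous -/
lemma cdf_lip (a ε : ℝ) (hε : 0 ≤ ε) : cdf (gaussianReal 0 1) (a + ε) ≤ cdf (gaussianReal 0 1) a + ε := by
  rw [cdf_eq_real, cdf_eq_real]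
  have h1 : Set.Iic (a + ε) = Set.Iic a ∪ Set.Ioc a (a + ε) := (Set.Iic_union_Ioc_eq_Iic (by linarith)).symm
  rw [h1]
  refine (measureReal_union_le _ _).trans ?_
  have h2 : (gaussianReal 0 1).real (Set.Ioc a (a + ε)) ≤ ε := by
    have h3 : gaussianReal 0 1 (Set.Ioc a (a + ε)) ≤ ENNReal.ofReal ε := by
      rw [gaussianReal_apply 0 (by norm_num : (1 : NNReal) ≠ 0)]
      calc ∫⁻ x in Set.Ioc a (a + ε), gaussianPDF 0 1 x ≤ ∫⁻ _x in Set.Ioc a (a + ε), 1 := by
            apply lintegral_mono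
            intro x
            rw [gaussianPDF]
            apply ENNReal.ofReal_le_one.2
            rw [gaussianPDFReal]
            have hpi : (1 : ℝ) ≤ √(2 * Real.pi * ((1 : NNReal) : ℝ)) := by
              rw [Real.one_le_sqrt]
              have := Real.pi_gt_three
              rw [NNReal.coe_one]
              linarith
            have h4 : (√(2 * Real.pi * ((1 : NNReal) : ℝ)))⁻¹ ≤ 1 := inv_le_one_of_one_le₀ hpi
            have h5 : Real.exp (-(x - 0) ^ 2 / (2 * ((1 : NNReal) : ℝ))) ≤ 1 := by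
              apply Real.exp_le_one_iff.2
              rw [NNReal.coe_one]
              have : 0 ≤ (x - 0) ^ 2 := sq_nonneg _
              linarith
            exact mul_le_one₀ h4 (Real.exp_pos _).le h5
        _ = ENNReal.ofReal ε := by
            rw [lintegral_const, one_mul, Measure.restrict_apply MeasurableSet.univ, Set.univ_inter, Real.volume_Ioc]
            congr 1
            ring
    exact ENNReal.toReal_le_of_le_ofReal hε h3
  linarith

/-- perturbation of the distribution function -/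
theorem cdf_perturb {Ω : Type} (F : Finset Ω) (hF : F.Nonempty) (X Y : Ω → ℝ) (δ ε κ : ℝ) (hε : 0 < ε)
    (h : ∀ t, |((F.filter (fun n => X n ≤ t)).card : ℝ) / F.card - cdf (gaussianReal 0 1) t| ≤ δ)
    (h2 : ∑ n ∈ F, (Y n - X n) ^ 2 ≤ κ * F.card) (t : ℝ) :
    |((F.filter (fun n => Y n ≤ t)).card : ℝ) / F.card - cdf (gaussianReal 0 1) t| ≤ δ + ε + κ / ε ^ 2 := by
  classical
  have hc0 : (0 : ℝ) < F.card := by exact_mod_cast hF.card_pos
  have hbad : ((F.filter (fun n => ε < |Y n - X n|)).card : ℝ) ≤ κ / ε ^ 2 * F.card := by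
    have h3 : ((F.filter (fun n => ε < |Y n - X n|)).card : ℝ) * ε ^ 2 ≤ ∑ n ∈ F, (Y n - X n) ^ 2 := by
      rw [← nsmul_eq_mul, ← sum_const]
      refine (sum_le_sum fun n hn => ?_).trans (sum_le_sum_of_subset_of_nonneg (filter_subset _ _) fun n _ _ => sq_nonneg _)
      rw [← sq_abs (Y n - X n)]
      exact pow_le_pow_left₀ hε.le (mem_filter.1 hn).2.le 2
    rw [div_mul_eq_mul_div, le_div_iff₀ (by positivity)]
    linarith
  have hup : ((F.filter (fun n => Y n ≤ t)).card : ℝ) ≤ (F.filter (fun n => X n ≤ t + ε)).card +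
      (F.filter (fun n => ε < |Y n - X n|)).card := by
    have h4 : F.filter (fun n => Y n ≤ t) ⊆ F.filter (fun n => X n ≤ t + ε) ∪ F.filter (fun n => ε < |Y n - X n|) := by
      intro n hn
      rw [mem_filter] at hn
      rw [mem_union, mem_filter, mem_filter]
      by_cases h5 : ε < |Y n - X n|
      · exact Or.inr ⟨hn.1, h5⟩
      · left
        refine ⟨hn.1, ?_⟩
        push Not at h5
        have := (abs_le.1 h5).1
        linarith [hn.2]
    exact_mod_cast (card_le_card h4).trans (card_union_le _ _)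
  have hlo : ((F.filter (fun n => X n ≤ t - ε)).card : ℝ) ≤ (F.filter (fun n => Y n ≤ t)).card +
      (F.filter (fun n => ε < |Y n - X n|)).card := by
    have h4 : F.filter (fun n => X n ≤ t - ε) ⊆ F.filter (fun n => Y n ≤ t) ∪ F.filter (fun n => ε < |Y n - X n|) := by
      intro n hn
      rw [mem_filter] at hn
      rw [mem_union, mem_filter, mem_filter]
      by_cases h5 : ε < |Y n - X n|
      · exact Or.inr ⟨hn.1, h5⟩
      · left
        refine ⟨hn.1, ?_⟩
        push Not at h5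
        have := (abs_le.1 h5).2
        linarith [hn.2]
    exact_mod_cast (card_le_card h4).trans (card_union_le _ _)
  have h5 := (abs_le.1 (h (t + ε))).2
  have h6 := (abs_le.1 (h (t - ε))).1
  have h7 := cdf_lip t ε hε.le
  have h8 := cdf_lip (t - ε) ε hε.le
  rw [sub_add_cancel] at h8
  have hup' : ((F.filter (fun n => Y n ≤ t)).card : ℝ) / F.card ≤ ((F.filter (fun n => X n ≤ t + ε)).card : ℝ) / F.card +
      κ / ε ^ 2 := by
    rw [div_le_iff₀ hc0, add_mul, div_mul_cancel₀ _ hc0.ne']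
    linarith
  have hlo' : ((F.filter (fun n => X n ≤ t - ε)).card : ℝ) / F.card ≤ ((F.filter (fun n => Y n ≤ t)).card : ℝ) / F.card +
      κ / ε ^ 2 := by
    rw [div_le_iff₀ hc0, add_mul, div_mul_cancel₀ _ hc0.ne']
    linarith
  rw [abs_le]
  constructor <;> linarith

/-- the box -/
noncomputable def bxx {ι : Type} [Fintype ι] [DecidableEq ι] (H : ι → ℕ) : Finset (ι → ℤ) :=
  Fintype.piFinset (fun i => Icc (-(H i : ℤ)) (H i))

lemma bxx_card {ι : Type} [Fintype ι] [DecidableEq ι] (H : ι → ℕ) : ((bxx H).card : ℝ) = ∏ i, (2 * (H i : ℝ) + 1) := by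
  unfold bxx
  rw [Fintype.card_piFinset, Nat.cast_prod]
  refine prod_congr rfl fun i _ => ?_
  rw [Int.card_Icc]
  have e : ((H i : ℤ) + 1 - -(H i : ℤ)).toNat = 2 * H i + 1 := by omega
  rw [e]
  push_cast
  ring

lemma ap_count (a : ℤ) (M q : ℕ) (hM : 1 ≤ M) (v : ℤ) :
    ((Ico a (a + M * q)).filter (fun z : ℤ => z ≡ v [ZMOD M])).card = q := by
  have hM0 : (0 : ℤ) < M := by exact_mod_cast hM
  have h1 := Int.Ico_filter_modEq_card a (a + M * q) (r := (M : ℤ)) hM0 v
  have e : ((a + M * q : ℤ) - v : ℚ) / ((M : ℤ) : ℚ) = ((a : ℤ) - v : ℚ) / ((M : ℤ) : ℚ) + (q : ℤ) := by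
    have : ((M : ℤ) : ℚ) ≠ 0 := by exact_mod_cast hM0.ne'
    push_cast
    push_cast at this
    field_simp
    ring
  have h2 : (((Ico a (a + M * q)).filter (fun z : ℤ => z ≡ v [ZMOD M])).card : ℤ) = q := by
    rw [h1]
    push_cast at e ⊢
    rw [e]
    have h3 := Int.ceil_add_intCast (((a : ℚ) - v) / (M : ℚ)) (q : ℤ)
    push_cast at h3
    rw [h3]
    have : (0 : ℤ) ≤ q := Int.natCast_nonneg _
    rw [add_sub_cancel_left, max_eq_left this]
  exact_mod_cast h2

theorem bxx_eqd {ι : Type} [Fintype ι] [DecidableEq ι] (H : ι → ℕ) (K : ℕ) (hK : ∀ i, K ≤ H i) (R : ℝ) :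
    Eqd (bxx H) (fun c => c) R (Fintype.card ι / (2 * K + 1)) := by
  classical
  intro M hM _ F hF hF1 hav
  have hM0 : (0 : ℝ) < M := by exact_mod_cast hM
  obtain ⟨q, hq⟩ : ∃ q : ι → ℕ, ∀ i, q i = (2 * H i + 1) / M := ⟨_, fun _ => rfl⟩
  have hq1 : ∀ i, M * q i ≤ 2 * H i + 1 := fun i => by rw [hq]; exact Nat.mul_div_le _ _
  have hq2 : ∀ i, 2 * H i + 1 < M * q i + M := fun i => by
    rw [hq]
    have := Nat.lt_mul_div_succ (2 * H i + 1) (by omega : 0 < M)
    rw [mul_add, mul_one] at this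
    exact this
  obtain ⟨D, hD⟩ : ∃ D : ι → Finset ℤ, ∀ i, D i = Ico (-(H i : ℤ)) (-(H i : ℤ) + M * q i) := ⟨_, fun _ => rfl⟩
  have hDs : ∀ i, D i ⊆ Icc (-(H i : ℤ)) (H i) := by
    intro i z hz
    rw [hD, mem_Ico] at hz
    rw [mem_Icc]
    have : ((M * q i : ℕ) : ℤ) ≤ ((2 * H i + 1 : ℕ) : ℤ) := by exact_mod_cast hq1 i
    push_cast at this
    omega
  have hsub : Fintype.piFinset D ⊆ bxx H := Fintype.piFinset_subset _ _ hDs
  -- the inner sum
  have hinner : ∑ c ∈ Fintype.piFinset D, F c = 0 := by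
    have hmap : ∀ c ∈ Fintype.piFinset D, (fun i => (c i % (M : ℤ)).toNat) ∈ bx ι M := fun c _ => mod_mem_bx (by omega) c
    rw [← sum_fiberwise_of_maps_to hmap]
    have h1 : ∀ t ∈ bx ι M, ∑ c ∈ (Fintype.piFinset D).filter (fun c => (fun i => (c i % (M : ℤ)).toNat) = t), F c =
        (∏ i, (q i : ℝ)) * F (fun i => (t i : ℤ)) := by
      intro t ht
      rw [mem_bx] at ht
      have h2 : (Fintype.piFinset D).filter (fun c => (fun i => (c i % (M : ℤ)).toNat) = t) =
          Fintype.piFinset (fun i => (D i).filter (fun z : ℤ => z ≡ (t i : ℤ) [ZMOD M])) := by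
        ext c
        rw [mem_filter, Fintype.mem_piFinset, Fintype.mem_piFinset]
        have h3 : ∀ i, (c i % (M : ℤ)).toNat = t i ↔ c i ≡ (t i : ℤ) [ZMOD M] := by
          intro i
          have h4 : 0 ≤ c i % (M : ℤ) := Int.emod_nonneg _ (by omega)
          have h5 : (t i : ℤ) % M = t i := Int.emod_eq_of_lt (Int.natCast_nonneg _) (by exact_mod_cast ht i)
          unfold Int.ModEq
          rw [h5]
          omega
        constructor
        · rintro ⟨h4, h5⟩ i
          rw [mem_filter]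
          exact ⟨h4 i, (h3 i).1 (congrFun h5 i)⟩
        · intro h4
          refine ⟨fun i => (mem_filter.1 (h4 i)).1, funext fun i => (h3 i).2 (mem_filter.1 (h4 i)).2⟩
      have h6 : ∀ c ∈ (Fintype.piFinset D).filter (fun c => (fun i => (c i % (M : ℤ)).toNat) = t), F c =
          F (fun i => (t i : ℤ)) := by
        intro c hc
        rw [mem_filter] at hc
        rw [← hF.mod (by omega : 0 < M) c, ← hc.2]
      rw [sum_congr rfl h6, sum_const, h2, Fintype.card_piFinset, nsmul_eq_mul, Nat.cast_prod]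
      congr 1
      refine prod_congr rfl fun i _ => ?_
      rw [hD, ap_count _ M (q i) hM]
    rw [sum_congr rfl h1, ← mul_sum]
    have h7 : ∑ t ∈ bx ι M, F (fun i => (t i : ℤ)) = 0 := by
      unfold av at hav
      rcases div_eq_zero_iff.1 hav with h | h
      · exact h
      · exact absurd h (by positivity)
    rw [h7, mul_zero]
  -- the rest
  have hrest : ∑ c ∈ bxx H, F c = ∑ c ∈ bxx H \ Fintype.piFinset D, F c := by
    rw [← sum_sdiff hsub, hinner, add_zero]
  have hcount : ((bxx H \ Fintype.piFinset D).card : ℝ) ≤ M * (Fintype.card ι / (2 * K + 1)) * (bxx H).card := by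
    have h1 : bxx H \ Fintype.piFinset D ⊆ univ.biUnion (fun i : ι =>
        Fintype.piFinset (Function.update (fun j => Icc (-(H j : ℤ)) (H j)) i (Icc (-(H i : ℤ)) (H i) \ D i))) := by
      intro c hc
      rw [Finset.mem_sdiff] at hc
      obtain ⟨h2, h3⟩ := hc
      unfold bxx at h2
      rw [Fintype.mem_piFinset] at h2 h3
      push Not at h3
      obtain ⟨i, hi⟩ := h3
      rw [mem_biUnion]
      refine ⟨i, mem_univ _, ?_⟩
      rw [Fintype.mem_piFinset]
      intro j
      by_cases hj : j = i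
      · subst hj
        rw [Function.update_self, Finset.mem_sdiff]
        exact ⟨h2 j, hi⟩
      · rw [Function.update_of_ne hj]
        exact h2 j
    have h2 := (card_le_card h1).trans card_biUnion_le
    have h3 : ∀ i : ι, ((Fintype.piFinset (Function.update (fun j => Icc (-(H j : ℤ)) (H j)) i
        (Icc (-(H i : ℤ)) (H i) \ D i))).card : ℝ) ≤ M / (2 * K + 1) * (bxx H).card := by
      intro i
      have e1 : ∀ j, (Function.update (fun j => Icc (-(H j : ℤ)) (H j)) i (Icc (-(H i : ℤ)) (H i) \ D i) j).card =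
          Function.update (fun j => (Icc (-(H j : ℤ)) (H j)).card) i (Icc (-(H i : ℤ)) (H i) \ D i).card j := by
        intro j
        by_cases hj : j = i
        · subst hj
          rw [Function.update_self, Function.update_self]
        · rw [Function.update_of_ne hj, Function.update_of_ne hj]
      rw [Fintype.card_piFinset, prod_congr rfl fun j _ => e1 j, prod_update_of_mem (mem_univ i)]
      have e2 : (bxx H).card = (Icc (-(H i : ℤ)) (H i)).card * ∏ j ∈ univ \ {i}, (Icc (-(H j : ℤ)) (H j)).card := by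
        unfold bxx
        rw [Fintype.card_piFinset, ← prod_update_of_mem (mem_univ i), Function.update_eq_self]
      rw [e2]
      have e3 : (Icc (-(H i : ℤ)) (H i)).card = 2 * H i + 1 := by
        rw [Int.card_Icc]
        omega
      have e4 : (Icc (-(H i : ℤ)) (H i) \ D i).card ≤ M := by
        rw [card_sdiff_of_subset (hDs i), e3, hD, Int.card_Ico]
        have : (-(H i : ℤ) + M * q i - -(H i : ℤ)).toNat = M * q i := by
          have h5 : (-(H i : ℤ) + M * q i - -(H i : ℤ)) = ((M * q i : ℕ) : ℤ) := by push_cast; ring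
          rw [h5, Int.toNat_natCast]
        rw [this]
        have := hq2 i
        omega
      rw [e3]
      push_cast
      obtain ⟨Q, hQ⟩ : ∃ Q : ℝ, Q = ∏ j ∈ univ \ {i}, ((Icc (-(H j : ℤ)) (H j)).card : ℝ) := ⟨_, rfl⟩
      have hQ0 : 0 ≤ Q := by rw [hQ]; exact prod_nonneg fun _ _ => Nat.cast_nonneg _
      rw [← hQ]
      have e5 : ((Icc (-(H i : ℤ)) (H i) \ D i).card : ℝ) ≤ M := by exact_mod_cast e4
      have e6 : (K : ℝ) ≤ H i := by exact_mod_cast hK i
      calc ((Icc (-(H i : ℤ)) (H i) \ D i).card : ℝ) * Q ≤ M * Q := mul_le_mul_of_nonneg_right e5 hQ0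
        _ ≤ M * (((2 * (H i : ℝ) + 1) / (2 * K + 1)) * Q) := by
            refine mul_le_mul_of_nonneg_left ?_ hM0.le
            refine le_mul_of_one_le_left hQ0 ?_
            rw [le_div_iff₀ (by positivity)]
            linarith
        _ = _ := by ring
    have h4 : ((bxx H \ Fintype.piFinset D).card : ℝ) ≤ ∑ i : ι, ((Fintype.piFinset (Function.update
        (fun j => Icc (-(H j : ℤ)) (H j)) i (Icc (-(H i : ℤ)) (H i) \ D i))).card : ℝ) := by exact_mod_cast h2
    refine h4.trans ((sum_le_sum fun i _ => h3 i).trans (le_of_eq ?_))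
    rw [sum_const, card_univ, nsmul_eq_mul]
    ring
  rw [hrest]
  calc |∑ c ∈ bxx H \ Fintype.piFinset D, F c| ≤ ∑ c ∈ bxx H \ Fintype.piFinset D, |F c| := abs_sum_le_sum_abs _ _
    _ ≤ ∑ c ∈ bxx H \ Fintype.piFinset D, (1 : ℝ) := sum_le_sum fun c _ => hF1 c
    _ = ((bxx H \ Fintype.piFinset D).card : ℝ) := by rw [sum_const, nsmul_eq_mul, mul_one]
    _ ≤ _ := hcount

end Pool.Agent.L0h41.NG
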