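import Pool.Agent.L0h41.NG.D

set_option autoImplicit false

/-!
# Fibre averages of random families: truncation
-/

namespace Pool.Agent.L0h41.NG

open Finset
open Pool.Agent.N368.TS Pool.Agent.L0h41.CL

variable {k₁ k₂ : ℕ}

/-- the truncated centered average -/
noncomputable def hh (G P : ℤ → ℤ → ℤ) (T : ℝ) (p : ℕ) (c : Fin k₁ ⊕ Fin k₂ → ℤ) : ℝ :=
  if |bet G P p c| ≤ T then bet G P p c else 0

lemma hh_per (G P : ℤ → ℤ → ℤ) (T : ℝ) (p : ℕ) : PerV (hh (k₁ := k₁) (k₂ := k₂) G P T p) p := by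
  intro c d h
  unfold hh
  rw [bet_per G P p c d h]

lemma hh_abs (G P : ℤ → ℤ → ℤ) {T : ℝ} (hT : 0 ≤ T) (p : ℕ) (c : Fin k₁ ⊕ Fin k₂ → ℤ) : |hh G P T p c| ≤ T := by
  unfold hh
  split_ifs with h
  · exact h
  · simpa using hT

lemma tail_one (G P : ℤ → ℤ → ℤ) {T : ℝ} (hT : 0 < T) (p : ℕ) (c : Fin k₁ ⊕ Fin k₂ → ℤ) :
    |bet G P p c - hh G P T p c| ≤ bet G P p c ^ 4 / T ^ 3 := by
  unfold hh
  split_ifs with h
  · rw [sub_self, abs_zero]
    positivity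
  · push Not at h
    rw [sub_zero, le_div_iff₀ (by positivity)]
    have h1 : T ^ 3 ≤ |bet G P p c| ^ 3 := pow_le_pow_left₀ hT.le h.le 3
    calc |bet G P p c| * T ^ 3 ≤ |bet G P p c| * |bet G P p c| ^ 3 := mul_le_mul_of_nonneg_left h1 (abs_nonneg _)
      _ = |bet G P p c| ^ 4 := by ring
      _ = bet G P p c ^ 4 := by
          rw [← abs_pow, abs_of_nonneg (by positivity)]

lemma tail_two (G P : ℤ → ℤ → ℤ) {T : ℝ} (hT : 0 < T) (p : ℕ) (c : Fin k₁ ⊕ Fin k₂ → ℤ) :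
    (bet G P p c - hh G P T p c) ^ 2 ≤ bet G P p c ^ 4 / T ^ 2 ∧
      bet G P p c ^ 2 - bet G P p c ^ 4 / T ^ 2 ≤ hh G P T p c ^ 2 ∧ hh G P T p c ^ 2 ≤ bet G P p c ^ 2 := by
  have h4 : 0 ≤ bet G P p c ^ 4 / T ^ 2 := by positivity
  unfold hh
  split_ifs with h
  · refine ⟨by rw [sub_self]; simpa using h4, by linarith, le_rfl⟩
  · push Not at h
    have h1 : bet G P p c ^ 2 ≤ bet G P p c ^ 4 / T ^ 2 := by
      rw [le_div_iff₀ (by positivity)]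
      have h2 : T ^ 2 ≤ |bet G P p c| ^ 2 := pow_le_pow_left₀ hT.le h.le 2
      rw [sq_abs] at h2
      calc bet G P p c ^ 2 * T ^ 2 ≤ bet G P p c ^ 2 * bet G P p c ^ 2 := mul_le_mul_of_nonneg_left h2 (sq_nonneg _)
        _ = _ := by ring
    refine ⟨by rw [sub_zero]; exact h1, ?_, ?_⟩
    · have : (0 : ℝ) ^ 2 = 0 := by norm_num
      rw [this]
      linarith
    · have : (0 : ℝ) ^ 2 = 0 := by norm_num
      rw [this]
      positivity

lemma av_sub' {ι : Type} [Fintype ι] [DecidableEq ι] (q : ℕ) (F G : (ι → ℤ) → ℝ) :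
    av q (fun t => F t - G t) = av q F - av q G := by
  have e : (fun t => F t - G t) = fun t => F t + (-1) * G t := by
    funext t
    ring
  rw [e, av_add, av_smul]
  ring

lemma av_const {ι : Type} [Fintype ι] [DecidableEq ι] {q : ℕ} (hq : 0 < q) (b : ℝ) :
    av q (fun _ : ι → ℤ => b) = b := by
  have e : (fun _ : ι → ℤ => b) = fun t => b * (fun _ : ι → ℤ => (1 : ℝ)) t := by
    funext t
    simp
  rw [e, av_smul, av_one hq, mul_one]

/-- the variance -/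
lemma av_sq_sub {ι : Type} [Fintype ι] [DecidableEq ι] {q : ℕ} (hq : 0 < q) (F : (ι → ℤ) → ℝ) :
    av q (fun c => (F c - av q F) ^ 2) = av q (fun c => F c ^ 2) - av q F ^ 2 := by
  obtain ⟨m, hm⟩ : ∃ m, m = av q F := ⟨_, rfl⟩
  rw [← hm]
  have e : (fun c => (F c - m) ^ 2) = fun c => (F c ^ 2 + (-(2 * m)) * F c) + m ^ 2 := by
    funext c
    ring
  rw [e, av_add, av_add, av_smul, av_const hq, ← hm]
  ring

section facts

variable (hk₁ : 4 ≤ k₁) (hk₂ : 4 ≤ k₂) {p : ℕ} (hp : p.Prime) {G P : ℤ → ℤ → ℤ} (hG : Per2 G) (hP : Per2 P) {T : ℝ} (hT : 1 ≤ T)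

include hk₁ hk₂ hp hG hP

lemma av_div_fourth {b : ℝ} (hb : 0 < b) : av p (fun c : Fin k₁ ⊕ Fin k₂ → ℤ => bet G P p c ^ 4 / b) ≤ 6 / b := by
  have e : (fun c : Fin k₁ ⊕ Fin k₂ → ℤ => bet G P p c ^ 4 / b) = fun c => (1 / b) * bet G P p c ^ 4 := by
    funext c
    ring
  rw [e, av_smul]
  have h := bet_fourth hk₁ hk₂ p hp hG hP
  calc 1 / b * av p (fun c : Fin k₁ ⊕ Fin k₂ → ℤ => bet G P p c ^ 4) ≤ 1 / b * 6 :=
        mul_le_mul_of_nonneg_left h (by positivity)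
    _ = 6 / b := by ring

include hT

lemma av_tail_two : av p (fun c : Fin k₁ ⊕ Fin k₂ → ℤ => (bet G P p c - hh G P T p c) ^ 2) ≤ 6 / T ^ 2 :=
  (av_mono fun c => (tail_two G P (by linarith) p c).1).trans (av_div_fourth hk₁ hk₂ hp hG hP (by positivity))

lemma av_hh : |av p (hh (k₁ := k₁) (k₂ := k₂) G P T p)| ≤ 6 / T ^ 3 := by
  have h1 : av p (hh (k₁ := k₁) (k₂ := k₂) G P T p) =
      -av p (fun c : Fin k₁ ⊕ Fin k₂ → ℤ => bet G P p c - hh G P T p c) := by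
    rw [av_sub', bet_mean G P hp]
    ring
  rw [h1, abs_neg, abs_le]
  have hT0 : 0 < T := by linarith
  have h2 := av_div_fourth hk₁ hk₂ hp hG hP (b := T ^ 3) (by positivity)
  constructor
  · have h3 : -av p (fun c : Fin k₁ ⊕ Fin k₂ → ℤ => bet G P p c - hh G P T p c) ≤ 6 / T ^ 3 := by
      have e : -av p (fun c : Fin k₁ ⊕ Fin k₂ → ℤ => bet G P p c - hh G P T p c) =
          av p (fun c : Fin k₁ ⊕ Fin k₂ → ℤ => (-1) * (bet G P p c - hh G P T p c)) := by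
        rw [av_smul]
        ring
      rw [e]
      refine (av_mono fun c => ?_).trans h2
      have := (abs_le.1 (tail_one G P hT0 p c)).1
      linarith
    linarith
  · exact (av_mono fun c => (abs_le.1 (tail_one G P hT0 p c)).2).trans h2

lemma av_hh_sq_le : av p (fun c : Fin k₁ ⊕ Fin k₂ → ℤ => hh G P T p c ^ 2) ≤ 1 :=
  (av_mono fun c => (tail_two G P (by linarith) p c).2.2).trans (bet_sq_le hk₁ hk₂ p hp hG hP)

lemma vr_hh_le : vr (hh (k₁ := k₁) (k₂ := k₂) G P T) p ≤ 1 := by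
  unfold vr
  have h1 := av_hh_sq_le hk₁ hk₂ hp hG hP hT
  have h2 : 0 ≤ av p (hh (k₁ := k₁) (k₂ := k₂) G P T p) ^ 2 := sq_nonneg _
  linarith

lemma vr_hh_ge (r : ℕ) (hr : ∀ (_h : Fact p.Prime) (t : ZMod p), (p : ℝ) - r ≤ nn (red p P) t) :
    1 - ((r : ℝ) + 2) / p - 42 / T ^ 2 ≤ vr (hh (k₁ := k₁) (k₂ := k₂) G P T) p := by
  have hp0 : (0 : ℝ) < p := by exact_mod_cast hp.pos
  have hT0 : 0 < T := by linarith
  have hpos : 0 ≤ 42 / T ^ 2 := by positivity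
  by_cases hp2 : p = 2
  · have h1 := vr_nonneg (hh (k₁ := k₁) (k₂ := k₂) G P T) hp
    have h2 : 1 - ((r : ℝ) + 2) / p ≤ 0 := by
      rw [hp2]
      push_cast
      have : (0 : ℝ) ≤ r := Nat.cast_nonneg _
      linarith
    linarith
  · unfold vr
    have h1 := bet_sq_ge hk₁ hk₂ p hp hp2 hG hP r hr
    have h2 : av p (fun c : Fin k₁ ⊕ Fin k₂ → ℤ => bet G P p c ^ 2) - 6 / T ^ 2 ≤
        av p (fun c : Fin k₁ ⊕ Fin k₂ → ℤ => hh G P T p c ^ 2) := by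
      have h3 := av_mono (q := p) fun c : Fin k₁ ⊕ Fin k₂ → ℤ => (tail_two G P hT0 p c).2.1
      rw [av_sub'] at h3
      have h4 := av_div_fourth hk₁ hk₂ hp hG hP (b := T ^ 2) (by positivity)
      linarith
    have h3 : av p (hh (k₁ := k₁) (k₂ := k₂) G P T p) ^ 2 ≤ 36 / T ^ 2 := by
      have h4 := av_hh hk₁ hk₂ hp hG hP hT
      have h5 : 6 / T ^ 3 ≤ 6 / T := by
        apply div_le_div_of_nonneg_left (by norm_num) hT0
        calc T = T ^ 1 := (pow_one T).symm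
          _ ≤ T ^ 3 := pow_le_pow_right₀ hT (by norm_num)
      have h6 : |av p (hh (k₁ := k₁) (k₂ := k₂) G P T p)| ^ 2 ≤ (6 / T) ^ 2 :=
        pow_le_pow_left₀ (abs_nonneg _) (h4.trans h5) 2
      rw [sq_abs, div_pow] at h6
      linarith
    have h7 : ((r : ℝ) + 1) / p ≤ (r + 2) / p := by gcongr; linarith
    have e : 42 / T ^ 2 = 6 / T ^ 2 + 36 / T ^ 2 := by ring
    rw [e]
    linarith

/-- the difference of the two normalizations -/
lemma psi_sq {sN sV : ℝ} :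
    av p (fun c : Fin k₁ ⊕ Fin k₂ → ℤ => (bet G P p c / sN -
      (hh G P T p c - av p (hh (k₁ := k₁) (k₂ := k₂) G P T p)) / sV) ^ 2) ≤
      2 * (1 / sN - 1 / sV) ^ 2 * vr (hh (k₁ := k₁) (k₂ := k₂) G P T) p + 12 / (T ^ 2) / sN ^ 2 := by
  obtain ⟨m, hm⟩ : ∃ m, m = av p (hh (k₁ := k₁) (k₂ := k₂) G P T p) := ⟨_, rfl⟩
  have hf : av p (fun c : Fin k₁ ⊕ Fin k₂ → ℤ => bet G P p c - hh G P T p c) = -m := by
    rw [av_sub', bet_mean G P hp, hm]
    ring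
  have h1 := av_sq_sub hp.pos (fun c : Fin k₁ ⊕ Fin k₂ → ℤ => bet G P p c - hh G P T p c)
  rw [hf] at h1
  have h2 := av_tail_two hk₁ hk₂ hp hG hP hT
  have h3 := av_sq_sub hp.pos (hh (k₁ := k₁) (k₂ := k₂) G P T p)
  rw [← hm] at h3 ⊢
  have h4 : av p (fun c : Fin k₁ ⊕ Fin k₂ → ℤ => (bet G P p c / sN - (hh G P T p c - m) / sV) ^ 2) ≤
      av p (fun c : Fin k₁ ⊕ Fin k₂ → ℤ => 2 * (1 / sN - 1 / sV) ^ 2 * (hh G P T p c - m) ^ 2 +
        2 / sN ^ 2 * (bet G P p c - hh G P T p c - -m) ^ 2) := by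
    apply av_mono
    intro c
    have e : bet G P p c / sN - (hh G P T p c - m) / sV = (1 / sN - 1 / sV) * (hh G P T p c - m) +
        1 / sN * (bet G P p c - hh G P T p c - -m) := by ring
    have e2 : 2 * (1 / sN - 1 / sV) ^ 2 * (hh G P T p c - m) ^ 2 + 2 / sN ^ 2 * (bet G P p c - hh G P T p c - -m) ^ 2 =
      2 * ((1 / sN - 1 / sV) * (hh G P T p c - m)) ^ 2 + 2 * (1 / sN * (bet G P p c - hh G P T p c - -m)) ^ 2 := by ring
    rw [e, e2]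
    nlinarith [sq_nonneg ((1 / sN - 1 / sV) * (hh G P T p c - m) - 1 / sN * (bet G P p c - hh G P T p c - -m))]
  refine h4.trans ?_
  rw [av_add, av_smul, av_smul, h3, h1]
  have h5 : vr (hh (k₁ := k₁) (k₂ := k₂) G P T) p = av p (fun c : Fin k₁ ⊕ Fin k₂ → ℤ => hh G P T p c ^ 2) - m ^ 2 := by
    unfold vr
    rw [← hm]
  rw [h5]
  have h6 : 2 / sN ^ 2 * (av p (fun c : Fin k₁ ⊕ Fin k₂ → ℤ => (bet G P p c - hh G P T p c) ^ 2) - (-m) ^ 2) ≤
      2 / sN ^ 2 * (6 / T ^ 2) := by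
    refine mul_le_mul_of_nonneg_left ?_ (by positivity)
    have : 0 ≤ (-m) ^ 2 := sq_nonneg _
    linarith
  have e3 : 2 / sN ^ 2 * (6 / T ^ 2) = 12 / (T ^ 2) / sN ^ 2 := by
    rw [div_mul_div_comm, div_div]
    congr 1
    · norm_num
    · ring
  linarith

end facts

lemma bet_abs (hk₁ : 4 ≤ k₁) (hk₂ : 4 ≤ k₂) (p : ℕ) (hp : p.Prime) {G P : ℤ → ℤ → ℤ} (hG : Per2 G) (hP : Per2 P)
    (c : Fin k₁ ⊕ Fin k₂ → ℤ) : |bet G P p c| ≤ p := by
  have : Fact p.Prime := ⟨hp⟩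
  have hp0 : (0 : ℝ) < p := by exact_mod_cast hp.pos
  by_cases hp2 : p = 2
  · subst hp2
    rw [bet_two, abs_zero]
    norm_num
  · rw [bet_eq hk₁ hk₂ p hp2 hG hP, abs_div, abs_of_pos hp0, div_le_iff₀ hp0]
    refine (abs_sum_le_sum_abs _ _).trans ?_
    have h : ∀ t ∈ (univ : Finset (ZMod p)), |XX (ff (red p G) (red p P)) t (rv p c)| ≤ (p : ℝ) := fun t _ => ff_abs _ _ _ _ _
    refine (sum_le_sum h).trans (le_of_eq ?_)
    rw [sum_const, card_univ, ZMod.card, nsmul_eq_mul]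

end Pool.Agent.L0h41.NG
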