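import Pool.Agent.Cov.PNT
import Pool.Agent.L0h41.CL.D

set_option autoImplicit false

/-!
# Fibre averages of random families: sums over primes
-/

namespace Pool.Agent.L0h41.NG

open Finset Filter Topology
open Pool.Agent.L0h41.CL

lemma theta_prs (x : ℕ) : Chebyshev.theta (x : ℝ) = ∑ p ∈ prs x, Real.log p := by
  unfold Chebyshev.theta prs
  rw [Nat.floor_natCast]
  refine sum_congr ?_ fun _ _ => rfl
  ext p
  rw [mem_filter, mem_filter, mem_Ioc, mem_range]
  constructor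
  · rintro ⟨h1, h2⟩
    exact ⟨by omega, h2⟩
  · rintro ⟨h1, h2⟩
    exact ⟨⟨h2.pos, by omega⟩, h2⟩

lemma mem_prs' {x p : ℕ} : p ∈ prs x ↔ p.Prime ∧ p ≤ x := by
  unfold prs
  rw [mem_filter, mem_range]
  exact ⟨fun h => ⟨h.2, by omega⟩, fun h => ⟨by omega, h.1⟩⟩

/-- small terms -/
lemma small_terms (K : ℝ) : ∃ x₀ : ℕ, 3 ≤ x₀ ∧ ∀ x : ℕ, x₀ ≤ x → K * (1 + Real.log x) ^ 4 ≤ x := by
  have h1 : Tendsto (fun x : ℝ => Real.log x ^ 4 / x) atTop (𝓝 0) := by
    have := (Real.isLittleO_pow_log_id_atTop (n := 4)).tendsto_div_nhds_zero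
    simpa using this
  have h2 : ∀ᶠ x : ℝ in atTop, Real.log x ^ 4 / x < 1 / (16 * (|K| + 1)) :=
    h1.eventually_lt_const (by positivity)
  obtain ⟨X, hX⟩ := (h2.and (eventually_ge_atTop (Real.exp 1))).exists_forall_of_atTop
  refine ⟨max 3 ⌈X⌉₊, le_max_left _ _, fun x hx => ?_⟩
  have hx1 : X ≤ x := (Nat.le_ceil X).trans (by exact_mod_cast (le_max_right _ _).trans hx)
  obtain ⟨h3, h4⟩ := hX x hx1
  have hx0 : (0 : ℝ) < x := lt_of_lt_of_le (Real.exp_pos 1) h4
  have hl : 1 ≤ Real.log x := by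
    rw [Real.le_log_iff_exp_le hx0]
    exact h4
  rw [div_lt_iff₀ hx0, one_div, inv_mul_eq_div, lt_div_iff₀ (by positivity)] at h3
  have h5 : (1 + Real.log x) ^ 4 ≤ (2 * Real.log x) ^ 4 := pow_le_pow_left₀ (by linarith) (by linarith) 4
  have h6 : (2 * Real.log x) ^ 4 = 16 * Real.log x ^ 4 := by ring
  have h7 : 0 ≤ Real.log x ^ 4 := by positivity
  calc K * (1 + Real.log x) ^ 4 ≤ (|K| + 1) * (16 * Real.log x ^ 4) := by
        rw [h6] at h5
        have : K ≤ |K| + 1 := by linarith [le_abs_self K]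
        exact mul_le_mul this h5 (by positivity) (by positivity)
    _ ≤ (x : ℝ) := by nlinarith

lemma log_sum_div (x : ℕ) : ∑ p ∈ prs x, 1 / (p : ℝ) ≤ 1 + Real.log x := by
  have h1 : ∑ p ∈ prs x, 1 / (p : ℝ) ≤ ∑ n ∈ Icc 1 x, 1 / (n : ℝ) := by
    refine sum_le_sum_of_subset_of_nonneg (fun p hp => ?_) fun n _ _ => by positivity
    rw [mem_prs'] at hp
    rw [mem_Icc]
    exact ⟨hp.1.pos, hp.2⟩
  refine h1.trans ?_
  have h2 := harmonic_le_one_add_log x
  have e : ((harmonic x : ℚ) : ℝ) = ∑ n ∈ Icc 1 x, 1 / (n : ℝ) := by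
    rw [harmonic_eq_sum_Icc]
    push_cast
    exact sum_congr rfl fun n _ => (one_div _).symm
  rwa [e] at h2

/-- the sum of the squares of the logarithms -/
lemma sum_log_sq (ε : ℝ) (hε : 0 < ε) : ∃ x₀ : ℕ, ∀ x : ℕ, x₀ ≤ x →
    (1 - ε) * (x * Real.log x) ≤ ∑ p ∈ prs x, Real.log p ^ 2 ∧
    ∑ p ∈ prs x, Real.log p ^ 2 ≤ (1 + ε) * (x * Real.log x) := by
  obtain ⟨e, he⟩ : ∃ e : ℝ, e = min ε 1 / 8 := ⟨_, rfl⟩
  have hm : 0 < min ε 1 := lt_min hε one_pos
  have he0 : 0 < e := by rw [he]; positivity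
  have he1 : e ≤ 1 / 8 := by rw [he]; linarith [min_le_right ε 1]
  have he2 : 8 * e ≤ ε := by rw [he]; linarith [min_le_left ε 1]
  have hth := Pool.Agent.Cov.PNT.theta_div_tendsto
  rw [Metric.tendsto_atTop] at hth
  obtain ⟨X, hX⟩ := hth e he0
  obtain ⟨X1, hX1⟩ : ∃ X1 : ℝ, X1 = max (max (X / e + 1) (Real.exp 1)) (Real.exp (Real.log (1 / e) / e)) := ⟨_, rfl⟩
  refine ⟨⌈X1⌉₊ + 1 + ⌈X⌉₊, fun x hx => ?_⟩
  have hx1 : X1 ≤ x := (Nat.le_ceil X1).trans (by exact_mod_cast (by omega : ⌈X1⌉₊ ≤ x))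
  have hxX : X ≤ x := (Nat.le_ceil X).trans (by exact_mod_cast (by omega : ⌈X⌉₊ ≤ x))
  have hxe : X / e + 1 ≤ x := by rw [hX1] at hx1; exact ((le_max_left _ _).trans (le_max_left _ _)).trans hx1
  have hxE : Real.exp 1 ≤ x := by rw [hX1] at hx1; exact ((le_max_right _ _).trans (le_max_left _ _)).trans hx1
  have hxl : Real.exp (Real.log (1 / e) / e) ≤ x := by rw [hX1] at hx1; exact (le_max_right _ _).trans hx1
  have hx0 : (0 : ℝ) < x := lt_of_lt_of_le (Real.exp_pos 1) hxE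
  have hl : 1 ≤ Real.log x := by
    rw [Real.le_log_iff_exp_le hx0]
    exact hxE
  have hle : Real.log (1 / e) ≤ e * Real.log x := by
    have h1 := (Real.le_log_iff_exp_le hx0).2 hxl
    rw [div_le_iff₀ he0] at h1
    linarith
  -- theta at x
  have ht1 := hX x hxX
  rw [Real.dist_eq, abs_lt] at ht1
  have ht1a : Chebyshev.theta x ≤ (1 + e) * x := by
    have : Chebyshev.theta x / x ≤ 1 + e := by linarith [ht1.2]
    rwa [div_le_iff₀ hx0] at this
  have ht1b : (1 - e) * x ≤ Chebyshev.theta x := by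
    have : 1 - e ≤ Chebyshev.theta x / x := by linarith [ht1.1]
    rwa [le_div_iff₀ hx0] at this
  -- theta at e x
  have hex : X ≤ e * x := by
    have : X / e ≤ x := by linarith
    rw [div_le_iff₀ he0] at this
    linarith
  have ht2 := hX (e * x) hex
  rw [Real.dist_eq, abs_lt] at ht2
  have hex0 : 0 < e * x := by positivity
  have ht2a : Chebyshev.theta (e * x) ≤ (1 + e) * (e * x) := by
    have : Chebyshev.theta (e * x) / (e * x) ≤ 1 + e := by linarith [ht2.2]
    rwa [div_le_iff₀ hex0] at this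
  have hlogp : ∀ p ∈ prs x, 0 ≤ Real.log p ∧ Real.log p ≤ Real.log x := by
    intro p hp
    rw [mem_prs'] at hp
    have hp1 : (1 : ℝ) ≤ p := by exact_mod_cast hp.1.pos
    exact ⟨Real.log_nonneg hp1, Real.log_le_log (by linarith) (by exact_mod_cast hp.2)⟩
  constructor
  · -- the lower bound
    obtain ⟨y, hy⟩ : ∃ y : ℕ, y = ⌊e * x⌋₊ := ⟨_, rfl⟩
    have hyx : (y : ℝ) ≤ e * x := by rw [hy]; exact Nat.floor_le hex0.le
    have hyt : Chebyshev.theta (e * x) = ∑ p ∈ prs y, Real.log p := by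
      rw [← theta_prs]
      unfold Chebyshev.theta
      rw [Nat.floor_natCast, hy]
    have h1 : ∑ p ∈ prs x, (Real.log (e * x)) * Real.log p - ∑ p ∈ prs y, (Real.log (e * x)) * Real.log p ≤
        ∑ p ∈ prs x, Real.log p ^ 2 := by
      have hsub : prs y ⊆ prs x := by
        intro p hp
        rw [mem_prs'] at hp ⊢
        refine ⟨hp.1, hp.2.trans ?_⟩
        have : (y : ℝ) ≤ x := hyx.trans (by nlinarith)
        exact_mod_cast this
      rw [← sum_sdiff hsub, add_sub_cancel_right]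
      refine (sum_le_sum fun p hp => ?_).trans (sum_le_sum_of_subset_of_nonneg sdiff_subset fun p _ _ => sq_nonneg _)
      rw [Finset.mem_sdiff, mem_prs', mem_prs'] at hp
      have h2 : y < p := by
        by_contra hcon
        exact hp.2 ⟨hp.1.1, by omega⟩
      have h3 : e * x < p := by
        rw [hy] at h2
        exact (Nat.floor_lt hex0.le).1 h2
      have h4 : Real.log (e * x) ≤ Real.log p := Real.log_le_log hex0 h3.le
      rw [sq]
      exact mul_le_mul_of_nonneg_right h4 (hlogp p (mem_prs'.2 hp.1)).1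
    rw [← mul_sum, ← mul_sum, ← theta_prs, ← hyt] at h1
    refine le_trans ?_ h1
    have h5 : Real.log (e * x) = Real.log x - Real.log (1 / e) := by
      rw [Real.log_mul he0.ne' hx0.ne', one_div, Real.log_inv]
      ring
    have h6 : (1 - e) * Real.log x ≤ Real.log (e * x) := by
      rw [h5]
      linarith
    have h7 : (1 - 3 * e) * x ≤ Chebyshev.theta x - Chebyshev.theta (e * x) := by nlinarith
    have h8 : 0 ≤ (1 - 3 * e) * x := by nlinarith
    have h9 : 0 ≤ (1 - e) * Real.log x := by nlinarith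
    have h10 := mul_le_mul h6 h7 h8 (h9.trans h6)
    have h11 : (1 - ε) * (x * Real.log x) ≤ (1 - e) * Real.log x * ((1 - 3 * e) * x) := by
      have h12 : 0 ≤ x * Real.log x := by positivity
      have h13 : 1 - ε ≤ (1 - e) * (1 - 3 * e) := by nlinarith
      calc (1 - ε) * (x * Real.log x) ≤ ((1 - e) * (1 - 3 * e)) * (x * Real.log x) := mul_le_mul_of_nonneg_right h13 h12
        _ = _ := by ring
    linarith
  · -- the upper bound
    have h1 : ∑ p ∈ prs x, Real.log p ^ 2 ≤ ∑ p ∈ prs x, Real.log x * Real.log p := by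
      refine sum_le_sum fun p hp => ?_
      rw [sq]
      exact mul_le_mul_of_nonneg_right (hlogp p hp).2 (hlogp p hp).1
    rw [← mul_sum, ← theta_prs] at h1
    have h2 : Real.log x * Chebyshev.theta x ≤ Real.log x * ((1 + e) * x) := mul_le_mul_of_nonneg_left ht1a (by linarith)
    have h3 : 0 ≤ x * Real.log x := by positivity
    have h4 : (1 + e) * (x * Real.log x) ≤ (1 + ε) * (x * Real.log x) := mul_le_mul_of_nonneg_right (by linarith) h3
    linarith

end Pool.Agent.L0h41.NG
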