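import Pool.Agent.L0h41.NG.E
import Pool.Agent.L0h41.NG.F

set_option autoImplicit false

/-!
# Fibre averages of random families: the central limit theorem
-/

namespace Pool.Agent.L0h41.NG

open Finset ProbabilityTheory
open Pool.Agent.N368.TS Pool.Agent.L0h41.CL

/-- the data -/
structure Dat (G P : ℤ → ℤ → ℤ) (r : ℕ) (C₁ : ℝ) (k₁ k₂ : ℕ) : Prop where
  hG : Per2 G
  hP : Per2 P
  hr : ∀ (p : ℕ) (_h : Fact p.Prime) (t : ZMod p), (p : ℝ) - r ≤ nn (red p P) t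
  hm : ∀ p : ℕ, p.Prime → |av p (nag (k₁ := k₁) (k₂ := k₂) G P p) + r| ≤ C₁ / p

lemma sqrt_close {y τ : ℝ} (hy : 0 ≤ y) (h : |y - 1| ≤ τ) : |√y - 1| ≤ τ := by
  have h1 : 0 ≤ √y := Real.sqrt_nonneg y
  have h2 : √y * √y = y := Real.mul_self_sqrt hy
  have e : y - 1 = (√y - 1) * (√y + 1) := by linear_combination -h2
  rw [e, abs_mul, abs_of_pos (by linarith : 0 < √y + 1)] at h
  have h3 : |√y - 1| ≤ |√y - 1| * (√y + 1) := le_mul_of_one_le_right (abs_nonneg _) (by linarith)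
  linarith

lemma sq_add_le (A D κ : ℝ) (h : D ^ 2 ≤ κ / 8) : (A + D) ^ 2 ≤ 2 * A ^ 2 + κ / 4 := by
  nlinarith [sq_nonneg (A - D)]

set_option maxHeartbeats 4000000 in
theorem nagao_clt {k₁ k₂ : ℕ} (hk₁ : 4 ≤ k₁) (hk₂ : 4 ≤ k₂) (δ : ℝ) (hδ : 0 < δ) : ∃ C : ℕ,
    ∀ (G P : ℤ → ℤ → ℤ) (r : ℕ) (C₁ : ℝ), Dat G P r C₁ k₁ k₂ → ∃ x₀ : ℕ, ∀ x : ℕ, x₀ ≤ x →
      ∀ H : Fin k₁ ⊕ Fin k₂ → ℕ, (∀ i, x ^ C ≤ H i) → ∀ u : ℝ,
        |(((bxx H).filter (fun c => ∑ p ∈ prs x, Real.log p * nag G P p c + r * ∑ p ∈ prs x, Real.log p ≤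
          u * √(x * Real.log x))).card : ℝ) / (bxx H).card - cdf (gaussianReal 0 1) u| ≤ δ := by
  classical
  obtain ⟨a, ha⟩ : ∃ a : ℝ, a = min δ 1 / 4 := ⟨_, rfl⟩
  have hm0 : 0 < min δ 1 := lt_min hδ one_pos
  have ha0 : 0 < a := by rw [ha]; positivity
  have ha1 : a ≤ 1 / 4 := by rw [ha]; linarith [min_le_right δ 1]
  have ha2 : 3 * a ≤ δ := by rw [ha]; linarith [min_le_left δ 1]
  obtain ⟨κ, hκ⟩ : ∃ κ : ℝ, κ = a ^ 3 := ⟨_, rfl⟩
  have hκ0 : 0 < κ := by rw [hκ]; positivity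
  have hκ1 : κ ≤ 1 / 64 := by
    rw [hκ]
    calc a ^ 3 ≤ (1 / 4) ^ 3 := pow_le_pow_left₀ ha0.le ha1 3
      _ = 1 / 64 := by norm_num
  obtain ⟨τ, hτ⟩ : ∃ τ : ℝ, τ = κ / 8 := ⟨_, rfl⟩
  have hτ0 : 0 < τ := by rw [hτ]; positivity
  obtain ⟨T, hT⟩ : ∃ T : ℝ, T = 3000 / κ := ⟨_, rfl⟩
  have hT0 : 0 < T := by rw [hT]; positivity
  have hT1 : 3000 ≤ T := by
    rw [hT, le_div_iff₀ hκ0]
    nlinarith
  have hT2 : 1 ≤ T := by linarith
  have hT3 : 84 / T ^ 2 ≤ τ / 4 := by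
    rw [hτ, div_le_div_iff₀ (by positivity) (by norm_num)]
    have h1 : T * κ = 3000 := by rw [hT]; field_simp
    have h2 : κ / 8 * T ^ 2 = 3000 * T / 8 := by
      calc κ / 8 * T ^ 2 = (T * κ) * T / 8 := by ring
        _ = _ := by rw [h1]
    rw [h2]
    linarith
  have hT4 : 24 / T ^ 2 ≤ κ / 16 := by
    have h1 : 24 / T ^ 2 ≤ 84 / T ^ 2 := by gcongr; norm_num
    have h2 : τ / 4 = κ / 32 := by rw [hτ]; ring
    linarith
  obtain ⟨ε₁, hε₁, hcore⟩ := clt_core (ι := Fin k₁ ⊕ Fin k₂) a ha0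
  obtain ⟨C0, V0, hV0, hclt⟩ := hcore 0 1 le_rfl
  refine ⟨C0 + 9, ?_⟩
  intro G P r C₁ hD
  have hC₁ : 0 ≤ C₁ := by
    have h := (abs_nonneg _).trans (hD.hm 2 Nat.prime_two)
    push_cast at h
    linarith
  obtain ⟨k, hk⟩ : ∃ k : ℕ, k = k₁ + k₂ := ⟨_, rfl⟩
  have hr0 : (0 : ℝ) ≤ r := Nat.cast_nonneg _
  obtain ⟨K, hK⟩ : ∃ K : ℝ, K = 4 * (r + 2) / τ + 8 * C₁ ^ 2 / κ + 2 * T ^ 2 * V0 + 1 := ⟨_, rfl⟩
  have q1 : 0 ≤ 4 * (r + 2) / τ := by positivity
  have q2 : 0 ≤ 8 * C₁ ^ 2 / κ := by positivity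
  have q3 : 0 ≤ 2 * T ^ 2 * V0 := by
    have : 0 ≤ V0 := by linarith
    positivity
  obtain ⟨x1, hx1, hsmall⟩ := small_terms K
  obtain ⟨x2, hlogs⟩ := sum_log_sq (τ / 4) (by positivity)
  refine ⟨x1 + x2 + ⌈2 * T⌉₊ + ⌈16 * (k : ℝ) / κ⌉₊ + k + 3, ?_⟩
  intro x hx H hH u
  have hx3 : 3 ≤ x := by omega
  have hx3r : (3 : ℝ) ≤ x := by exact_mod_cast hx3
  have hx0 : (0 : ℝ) < x := by linarith
  have hx1r : (1 : ℝ) ≤ x := by linarith
  have hxT : 2 * T ≤ x := (Nat.le_ceil _).trans (by exact_mod_cast (by omega : ⌈2 * T⌉₊ ≤ x))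
  have hxk : 16 * (k : ℝ) / κ ≤ x := (Nat.le_ceil _).trans (by exact_mod_cast (by omega : ⌈16 * (k : ℝ) / κ⌉₊ ≤ x))
  have hxk2 : (k : ℝ) ≤ x := by exact_mod_cast (by omega : k ≤ x)
  obtain ⟨L, hL⟩ : ∃ L : ℝ, L = Real.log x := ⟨_, rfl⟩
  have hL1 : 1 ≤ L := by
    rw [hL, Real.le_log_iff_exp_le hx0]
    have := Real.exp_one_lt_d9
    linarith
  have hLx : L ≤ x := by
    rw [hL]
    exact (Real.log_le_sub_one_of_pos hx0).trans (by linarith)
  have hKx : K * (1 + L) ^ 4 ≤ x := by rw [hL]; exact hsmall x (by omega)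
  obtain ⟨W, hW⟩ : ∃ W : ℝ, W = ∑ p ∈ prs x, Real.log p ^ 2 := ⟨_, rfl⟩
  obtain ⟨N, hN⟩ : ∃ N : ℝ, N = x * L := ⟨_, rfl⟩
  have hNx : (x : ℝ) ≤ N := by rw [hN]; nlinarith
  have hN0 : 0 < N := by linarith
  have hN1 : 1 ≤ N := by linarith
  obtain ⟨hW1, hW2⟩ := hlogs x (by omega)
  rw [← hL, ← hN, ← hW] at hW1 hW2
  have hτ1 : τ ≤ 1 / 512 := by rw [hτ]; linarith
  have hprs : ∀ p ∈ prs x, p.Prime ∧ p ≤ x := fun p hp => mem_prs'.1 hp
  have hlogp : ∀ p ∈ prs x, 0 ≤ Real.log p ∧ Real.log p ≤ L := by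
    intro p hp
    obtain ⟨h1, h2⟩ := hprs p hp
    have hp1 : (1 : ℝ) ≤ p := by exact_mod_cast h1.pos
    rw [hL]
    exact ⟨Real.log_nonneg hp1, Real.log_le_log (by linarith) (by exact_mod_cast h2)⟩
  have h1L : (1 + L) ≤ (1 + L) ^ 4 := by
    calc (1 + L) = (1 + L) ^ 1 := (pow_one _).symm
      _ ≤ (1 + L) ^ 4 := pow_le_pow_right₀ (by linarith) (by norm_num)
  have h3L : (1 + L) ^ 3 ≤ (1 + L) ^ 4 := pow_le_pow_right₀ (by linarith) (by norm_num)
  have h4L : 0 ≤ (1 + L) ^ 4 := by positivity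
  -- the reciprocals
  have hrec : ∑ p ∈ prs x, 1 / (p : ℝ) ≤ 1 + L := by rw [hL]; exact log_sum_div x
  -- the truncated variance
  obtain ⟨VT, hVT⟩ : ∃ VT : ℝ, VT = ∑ p ∈ prs x, Real.log p ^ 2 * vr (hh (k₁ := k₁) (k₂ := k₂) G P T) p := ⟨_, rfl⟩
  have hVT1 : VT ≤ W := by
    rw [hVT, hW]
    refine sum_le_sum fun p hp => ?_
    exact mul_le_of_le_one_right (sq_nonneg _) (vr_hh_le hk₁ hk₂ (hprs p hp).1 hD.hG hD.hP hT2)
  have hVT2 : (1 - τ) * N ≤ VT := by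
    have h1 : ∑ p ∈ prs x, Real.log p ^ 2 * (1 - 42 / T ^ 2) - ∑ p ∈ prs x, L ^ 2 * (r + 2) * (1 / (p : ℝ)) ≤ VT := by
      rw [hVT, ← sum_sub_distrib]
      refine sum_le_sum fun p hp => ?_
      have h2 := vr_hh_ge hk₁ hk₂ (hprs p hp).1 hD.hG hD.hP hT2 r (hD.hr p)
      have h3 : Real.log p ^ 2 * (1 - (r + 2) / p - 42 / T ^ 2) ≤ Real.log p ^ 2 * vr (hh (k₁ := k₁) (k₂ := k₂) G P T) p :=
        mul_le_mul_of_nonneg_left h2 (sq_nonneg _)
      have h4 : Real.log p ^ 2 * ((r + 2) / p) ≤ L ^ 2 * ((r + 2) / p) := by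
        refine mul_le_mul_of_nonneg_right ?_ (by positivity)
        exact pow_le_pow_left₀ (hlogp p hp).1 (hlogp p hp).2 2
      have e : L ^ 2 * (r + 2) * (1 / (p : ℝ)) = L ^ 2 * ((r + 2) / p) := by ring
      rw [e]
      linarith
    rw [← Finset.sum_mul, ← mul_sum, ← hW] at h1
    have h5 : L ^ 2 * (r + 2) * ∑ p ∈ prs x, 1 / (p : ℝ) ≤ τ / 4 * N := by
      have h6 : L ^ 2 * (r + 2) * ∑ p ∈ prs x, 1 / (p : ℝ) ≤ (r + 2) * (1 + L) ^ 3 := by
        calc L ^ 2 * (r + 2) * ∑ p ∈ prs x, 1 / (p : ℝ) ≤ (1 + L) ^ 2 * (r + 2) * (1 + L) := by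
              apply mul_le_mul _ hrec (sum_nonneg fun p _ => by positivity) (by positivity)
              apply mul_le_mul_of_nonneg_right _ (by positivity)
              exact pow_le_pow_left₀ (by linarith) (by linarith) 2
          _ = _ := by ring
      have h7 : 4 * (r + 2) / τ * (1 + L) ^ 4 ≤ x := by
        refine le_trans ?_ hKx
        refine mul_le_mul_of_nonneg_right ?_ h4L
        rw [hK]
        linarith
      have h8 : 4 * (r + 2) * (1 + L) ^ 4 ≤ τ * x := by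
        have e : 4 * ((r : ℝ) + 2) / τ * (1 + L) ^ 4 = 4 * (r + 2) * (1 + L) ^ 4 / τ := by ring
        rw [e, div_le_iff₀ hτ0] at h7
        linarith
      have h9 : (r + 2) * (1 + L) ^ 3 ≤ (r + 2) * (1 + L) ^ 4 := mul_le_mul_of_nonneg_left h3L (by linarith)
      have h10 : τ * x ≤ τ * N := mul_le_mul_of_nonneg_left hNx hτ0.le
      linarith
    have h6 : W * (42 / T ^ 2) ≤ τ / 4 * N := by
      have h7 : W ≤ 2 * N := by
        have : (1 + τ / 4) * N ≤ 2 * N := mul_le_mul_of_nonneg_right (by linarith) hN0.le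
        linarith
      calc W * (42 / T ^ 2) ≤ 2 * N * (42 / T ^ 2) := mul_le_mul_of_nonneg_right h7 (by positivity)
        _ = (84 / T ^ 2) * N := by ring
        _ ≤ τ / 4 * N := mul_le_mul_of_nonneg_right hT3 hN0.le
    have e : W * (1 - 42 / T ^ 2) = W - W * (42 / T ^ 2) := by ring
    rw [e] at h1
    have h8 : (1 - τ) * N ≤ (1 - τ / 4) * N - τ / 4 * N - τ / 4 * N := by nlinarith
    linarith
  have hVN : (1 / 2) * N ≤ VT := by
    have : (1 / 2) * N ≤ (1 - τ) * N := mul_le_mul_of_nonneg_right (by linarith) hN0.le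
    linarith
  have hVT1' : 1 ≤ VT := by linarith
  have hVT0 : 0 < VT := by linarith
  obtain ⟨sN, hsN⟩ : ∃ sN, sN = √N := ⟨_, rfl⟩
  obtain ⟨sV, hsV⟩ : ∃ sV, sV = √VT := ⟨_, rfl⟩
  have hsN1 : 1 ≤ sN := by rw [hsN]; exact Real.one_le_sqrt.2 hN1
  have hsV1 : 1 ≤ sV := by rw [hsV]; exact Real.one_le_sqrt.2 hVT1'
  have hsN0 : 0 < sN := by linarith
  have hsV0 : 0 < sV := by linarith
  have hsN2 : sN ^ 2 = N := by rw [hsN]; exact Real.sq_sqrt hN0.le
  have hsV2 : sV ^ 2 = VT := by rw [hsV]; exact Real.sq_sqrt hVT0.le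
  -- the quotient of the normalizations
  have hquot : (1 / sN - 1 / sV) ^ 2 * VT ≤ τ ^ 2 := by
    have e1 : (1 / sN - 1 / sV) ^ 2 * VT = (sV / sN - 1) ^ 2 := by
      rw [← hsV2]
      field_simp
    rw [e1]
    have e2 : sV / sN = √(VT / N) := by rw [Real.sqrt_div hVT0.le, hsV, hsN]
    have h1 : |VT / N - 1| ≤ τ := by
      rw [abs_le]
      constructor
      · have : 1 - τ ≤ VT / N := by rwa [le_div_iff₀ hN0]
        linarith
      · have : VT / N ≤ 1 + τ := by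
          rw [div_le_iff₀ hN0]
          have : (1 + τ / 4) * N ≤ (1 + τ) * N := mul_le_mul_of_nonneg_right (by linarith) hN0.le
          linarith
        linarith
    have h2 := sqrt_close (by positivity : 0 ≤ VT / N) h1
    rw [e2, ← sq_abs]
    exact pow_le_pow_left₀ (abs_nonneg _) h2 2
  -- the means
  obtain ⟨m, hm⟩ : ∃ m : ℕ → ℝ, ∀ p, m p = av p (hh (k₁ := k₁) (k₂ := k₂) G P T p) := ⟨_, fun _ => rfl⟩
  have hmT : ∀ p, p.Prime → |m p| ≤ T := fun p hp => by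
    rw [hm]
    exact av_abs hp.pos fun c => hh_abs G P hT0.le p c
  -- the difference
  obtain ⟨ψ, hψ⟩ : ∃ ψ : ℕ → (Fin k₁ ⊕ Fin k₂ → ℤ) → ℝ, ∀ p c, ψ p c =
    Real.log p * (bet G P p c / sN - (hh G P T p c - m p) / sV) := ⟨_, fun _ _ => rfl⟩
  obtain ⟨η, hη⟩ : ∃ η : ℝ, η = (Fintype.card (Fin k₁ ⊕ Fin k₂) : ℝ) / (2 * ((x ^ (C0 + 9) : ℕ) : ℝ) + 1) := ⟨_, rfl⟩
  have hη0 : 0 ≤ η := by rw [hη]; positivity
  have hηk : η * (x : ℝ) ^ (C0 + 9) ≤ k := by
    rw [hη, cardι, ← hk, div_mul_eq_mul_div, div_le_iff₀ (by positivity)]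
    push_cast
    have h1 : (0 : ℝ) ≤ k := Nat.cast_nonneg _
    have h2 : (0 : ℝ) ≤ (x : ℝ) ^ (C0 + 9) := by positivity
    nlinarith
  have hEqd : ∀ R : ℝ, Eqd (bxx H) (fun c => c) R η := by
    intro R
    rw [hη]
    exact bxx_eqd H (x ^ (C0 + 9)) hH R
  have hψ_per : ∀ p ∈ prs x, PerV (ψ p) p := by
    intro p _ c d hcd
    rw [hψ, hψ, bet_per G P p c d hcd, hh_per G P T p c d hcd]
  obtain ⟨B, hB⟩ : ∃ B : ℝ, B = x * (x + 2 * T) := ⟨_, rfl⟩
  have hB0 : 0 < B := by rw [hB]; positivity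
  have hψ_le : ∀ p ∈ prs x, ∀ c, |ψ p c| ≤ B := by
    intro p hp c
    obtain ⟨h1, h2⟩ := hprs p hp
    have h2r : (p : ℝ) ≤ x := by exact_mod_cast h2
    rw [hψ, abs_mul, hB]
    have h3 : |Real.log p| ≤ x := by
      rw [abs_of_nonneg (hlogp p hp).1]
      exact (hlogp p hp).2.trans hLx
    have h4 : |bet G P p c / sN| ≤ x := by
      rw [abs_div, abs_of_pos hsN0, div_le_iff₀ hsN0]
      have := bet_abs hk₁ hk₂ p h1 hD.hG hD.hP c
      nlinarith
    have h5 : |(hh G P T p c - m p) / sV| ≤ 2 * T := by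
      rw [abs_div, abs_of_pos hsV0, div_le_iff₀ hsV0]
      have h6 := abs_sub (hh G P T p c) (m p)
      have h7 := hh_abs G P hT0.le p c
      have h8 := hmT p h1
      nlinarith
    have h6 := abs_sub (bet G P p c / sN) ((hh G P T p c - m p) / sV)
    exact mul_le_mul h3 (by linarith) (abs_nonneg _) hx0.le
  have hψ_mean : ∀ p ∈ prs x, av p (ψ p) = 0 := by
    intro p hp
    obtain ⟨h1, _⟩ := hprs p hp
    have e : ψ p = fun c => Real.log p * ((1 / sN) * bet G P p c - (1 / sV) * (hh G P T p c - m p)) := by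
      funext c
      rw [hψ]
      ring
    rw [e, av_smul, av_sub', av_smul, av_smul, bet_mean G P h1, hm, av_sub_av h1.pos]
    ring
  have hψ_sq : ∑ p ∈ prs x, av p (fun c => ψ p c ^ 2) ≤ κ / 8 := by
    have h1 : ∀ p ∈ prs x, av p (fun c => ψ p c ^ 2) ≤
        2 * (1 / sN - 1 / sV) ^ 2 * (Real.log p ^ 2 * vr (hh (k₁ := k₁) (k₂ := k₂) G P T) p) +
          12 / (T ^ 2) / sN ^ 2 * Real.log p ^ 2 := by
      intro p hp
      obtain ⟨h1, _⟩ := hprs p hp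
      have e : (fun c => ψ p c ^ 2) = fun c => Real.log p ^ 2 * (bet G P p c / sN - (hh G P T p c - m p) / sV) ^ 2 := by
        funext c
        rw [hψ, mul_pow]
      rw [e, av_smul, hm]
      have h2 := psi_sq hk₁ hk₂ h1 hD.hG hD.hP hT2 (sN := sN) (sV := sV)
      calc _ ≤ Real.log p ^ 2 * (2 * (1 / sN - 1 / sV) ^ 2 * vr (hh (k₁ := k₁) (k₂ := k₂) G P T) p +
            12 / (T ^ 2) / sN ^ 2) := mul_le_mul_of_nonneg_left h2 (sq_nonneg _)
        _ = _ := by ring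
    refine (sum_le_sum h1).trans ?_
    rw [sum_add_distrib, ← mul_sum, ← mul_sum, ← hVT, ← hW, hsN2]
    have h2 : 2 * (1 / sN - 1 / sV) ^ 2 * VT ≤ 2 * τ ^ 2 := by linarith
    have h3 : 2 * τ ^ 2 ≤ κ / 16 := by
      rw [hτ]
      nlinarith
    have h4 : 12 / T ^ 2 / N * W ≤ κ / 16 := by
      have h5 : W ≤ 2 * N := by
        have : (1 + τ / 4) * N ≤ 2 * N := mul_le_mul_of_nonneg_right (by linarith) hN0.le
        linarith
      calc 12 / T ^ 2 / N * W ≤ 12 / T ^ 2 / N * (2 * N) := mul_le_mul_of_nonneg_left h5 (by positivity)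
        _ = 24 / T ^ 2 := by field_simp; norm_num
        _ ≤ κ / 16 := hT4
    linarith
  -- the second moment over the box
  have hxC : (x : ℝ) ^ 2 ≤ (x : ℝ) ^ (C0 + 9) := pow_le_pow_right₀ hx1r (by omega)
  have hsec := second_mom (hEqd ((x : ℝ) ^ (C0 + 9))) hη0 (prs x) ψ x B hB0 hprs hψ_per hψ_le hψ_mean hxC
  have herr : B ^ 2 * η * (x : ℝ) ^ 4 ≤ κ / 8 := by
    have h1 : B ≤ 2 * (x : ℝ) ^ 2 := by rw [hB]; nlinarith
    have h2 : B ^ 2 ≤ (2 * (x : ℝ) ^ 2) ^ 2 := pow_le_pow_left₀ hB0.le h1 2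
    have h3 : B ^ 2 * η * (x : ℝ) ^ 4 * x ≤ 2 * k := by
      -- stronger estimate of `η`
      have h4 : η * (x : ℝ) ^ 9 ≤ k / 2 := by
        rw [hη, cardι, ← hk, div_mul_eq_mul_div, div_le_iff₀ (by positivity)]
        push_cast
        have h5 : (0 : ℝ) ≤ k := Nat.cast_nonneg _
        have h6 : (x : ℝ) ^ 9 ≤ (x : ℝ) ^ (C0 + 9) := pow_le_pow_right₀ hx1r (by omega)
        nlinarith
      calc B ^ 2 * η * (x : ℝ) ^ 4 * x ≤ (2 * (x : ℝ) ^ 2) ^ 2 * η * (x : ℝ) ^ 4 * x := by gcongr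
        _ = 4 * (η * (x : ℝ) ^ 9) := by ring
        _ ≤ 4 * (k / 2) := by linarith
        _ = 2 * k := by ring
    have h4 : 16 * (k : ℝ) ≤ κ * x := by
      rw [div_le_iff₀ hκ0] at hxk
      linarith
    have h5 : B ^ 2 * η * (x : ℝ) ^ 4 * x ≤ κ / 8 * x := by linarith
    exact le_of_mul_le_mul_right h5 hx0
  -- the deterministic shift
  obtain ⟨dd, hdd⟩ : ∃ dd : ℝ, dd = (∑ p ∈ prs x, Real.log p * (av p (nag (k₁ := k₁) (k₂ := k₂) G P p) + r)) / sN := ⟨_, rfl⟩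
  have hdd2 : dd ^ 2 ≤ κ / 8 := by
    have h1 : |∑ p ∈ prs x, Real.log p * (av p (nag (k₁ := k₁) (k₂ := k₂) G P p) + r)| ≤ C₁ * (1 + L) ^ 2 := by
      refine (abs_sum_le_sum_abs _ _).trans ?_
      have h2 : ∀ p ∈ prs x, |Real.log p * (av p (nag (k₁ := k₁) (k₂ := k₂) G P p) + r)| ≤ L * C₁ * (1 / (p : ℝ)) := by
        intro p hp
        rw [abs_mul, abs_of_nonneg (hlogp p hp).1]
        calc Real.log p * |av p (nag (k₁ := k₁) (k₂ := k₂) G P p) + r| ≤ L * (C₁ / p) :=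
              mul_le_mul (hlogp p hp).2 (hD.hm p (hprs p hp).1) (abs_nonneg _) (by linarith)
          _ = _ := by ring
      refine (sum_le_sum h2).trans ?_
      rw [← mul_sum]
      calc L * C₁ * ∑ p ∈ prs x, 1 / (p : ℝ) ≤ (1 + L) * C₁ * (1 + L) := by
            apply mul_le_mul _ hrec (sum_nonneg fun p _ => by positivity) (by positivity)
            exact mul_le_mul_of_nonneg_right (by linarith) hC₁
        _ = _ := by ring
    rw [hdd, div_pow, hsN2, div_le_iff₀ hN0, ← sq_abs]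
    have h3 := pow_le_pow_left₀ (abs_nonneg _) h1 2
    have h4 : 8 * C₁ ^ 2 / κ * (1 + L) ^ 4 ≤ x := by
      refine le_trans ?_ hKx
      refine mul_le_mul_of_nonneg_right ?_ h4L
      rw [hK]
      linarith
    have e : 8 * C₁ ^ 2 / κ * (1 + L) ^ 4 = 8 * C₁ ^ 2 * (1 + L) ^ 4 / κ := by ring
    rw [e, div_le_iff₀ hκ0] at h4
    have e2 : (C₁ * (1 + L) ^ 2) ^ 2 = C₁ ^ 2 * (1 + L) ^ 4 := by ring
    rw [e2] at h3
    have h5 : x * κ ≤ N * κ := mul_le_mul_of_nonneg_right hNx hκ0.le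
    linarith
  -- the two random variables
  obtain ⟨X, hX⟩ : ∃ X : (Fin k₁ ⊕ Fin k₂ → ℤ) → ℝ, ∀ c, X c = (∑ p ∈ prs x, Real.log p * (hh G P T p c - m p)) / sV :=
    ⟨_, fun _ => rfl⟩
  obtain ⟨Y, hY⟩ : ∃ Y : (Fin k₁ ⊕ Fin k₂ → ℤ) → ℝ, ∀ c, Y c =
    (∑ p ∈ prs x, Real.log p * nag G P p c + r * ∑ p ∈ prs x, Real.log p) / sN := ⟨_, fun _ => rfl⟩
  have hYX : ∀ c, Y c - X c = (∑ p ∈ prs x, ψ p c) + dd := by
    intro c
    rw [hY, hX, hdd, mul_sum, ← sum_add_distrib, sum_div, sum_div, sum_div, ← sum_sub_distrib, ← sum_add_distrib]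
    refine sum_congr rfl fun p _ => ?_
    rw [hψ]
    unfold bet
    ring
  have hbne : (bxx H).Nonempty := by
    rw [← card_pos]
    have h1 : (0 : ℝ) < ((bxx H).card : ℝ) := by
      rw [bxx_card]
      exact prod_pos fun i _ => by positivity
    exact_mod_cast h1
  have hc0 : (0 : ℝ) < (bxx H).card := by exact_mod_cast hbne.card_pos
  have hmain2 : ∑ c ∈ bxx H, (Y c - X c) ^ 2 ≤ κ * (bxx H).card := by
    have h1 : ∀ c ∈ bxx H, (Y c - X c) ^ 2 ≤ 2 * (∑ p ∈ prs x, ψ p c) ^ 2 + κ / 4 := by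
      intro c _
      rw [hYX]
      exact sq_add_le _ _ _ hdd2
    refine (sum_le_sum h1).trans ?_
    rw [sum_add_distrib, ← mul_sum, sum_const, nsmul_eq_mul]
    have h2 : (bxx H).card * (∑ p ∈ prs x, av p (fun c => ψ p c ^ 2) + B ^ 2 * η * (x : ℝ) ^ 4) ≤
        (bxx H).card * (κ / 4) := mul_le_mul_of_nonneg_left (by linarith) hc0.le
    have h3 := hsec.trans h2
    have h4 : 0 ≤ κ * (bxx H).card := by positivity
    linarith
  -- the central limit theorem for `X`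
  obtain ⟨lam, hlam⟩ : ∃ lam : ℝ, lam = 1 / (T * L) := ⟨_, rfl⟩
  have hL0 : 0 < L := by linarith
  have hlam0 : 0 < lam := by rw [hlam]; positivity
  obtain ⟨g, hg⟩ : ∃ g : ℕ → (Fin k₁ ⊕ Fin k₂ → ℤ) → ℝ, ∀ p c, g p c =
    if p ≤ x then (lam * Real.log p) * hh G P T p c else 0 := ⟨_, fun _ _ => rfl⟩
  have hg1 : ∀ p ∈ prs x, g p = fun c => (lam * Real.log p) * hh G P T p c := by
    intro p hp
    funext c
    rw [hg, if_pos (hprs p hp).2]
  have hvrg : ∑ p ∈ prs x, vr g p = lam ^ 2 * VT := by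
    rw [hVT, mul_sum]
    refine sum_congr rfl fun p hp => ?_
    unfold vr
    rw [hg1 p hp]
    have e : (fun c : Fin k₁ ⊕ Fin k₂ → ℤ => ((lam * Real.log p) * hh G P T p c) ^ 2) =
        fun c => (lam * Real.log p) ^ 2 * hh G P T p c ^ 2 := by
      funext c
      ring
    rw [e, av_smul, av_smul]
    ring
  have hgX : ∀ c, ∑ p ∈ prs x, g p c - ∑ p ∈ prs x, av p (g p) = (lam * sV) * X c := by
    intro c
    rw [hX, ← sum_sub_distrib, mul_div_assoc', eq_div_iff hsV0.ne']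
    rw [Finset.sum_mul, mul_sum]
    refine sum_congr rfl fun p hp => ?_
    rw [hg1 p hp, av_smul, ← hm]
    ring
  have hsqV : √(∑ p ∈ prs x, vr g p) = lam * sV := by
    rw [hvrg, Real.sqrt_mul (sq_nonneg _), Real.sqrt_sq hlam0.le, ← hsV]
  have hXclt : ∀ t, |(((bxx H).filter (fun c => X c ≤ t)).card : ℝ) / (bxx H).card - cdf (gaussianReal 0 1) t| ≤ a := by
    intro t
    have h := hclt (Fin k₁ ⊕ Fin k₂ → ℤ) (bxx H) (bxx H) (fun c => c) (fun _ => 1) η x g (Subset.refl _)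
      (by linarith) hbne (fun p _ _ => Nat.coprime_one_left p) (fun _ _ _ => rfl) (fun _ => zero_le_one)
      (fun _ => le_rfl) (by
        rw [sum_eq_zero fun c hc => by
          rw [Set.indicator_of_mem (by exact_mod_cast hc), sub_self, abs_zero]]
        positivity) hη0 (hEqd _) (by
        -- `η x ^ C0 ≤ 4`
        have h1 : η * (x : ℝ) ^ C0 * (x : ℝ) ^ 9 ≤ k := by
          calc η * (x : ℝ) ^ C0 * (x : ℝ) ^ 9 = η * (x : ℝ) ^ (C0 + 9) := by ring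
            _ ≤ k := hηk
        have h2 : (x : ℝ) ≤ (x : ℝ) ^ 9 := by
          calc (x : ℝ) = (x : ℝ) ^ 1 := (pow_one _).symm
            _ ≤ (x : ℝ) ^ 9 := pow_le_pow_right₀ hx1r (by norm_num)
        have h3 : 0 ≤ η * (x : ℝ) ^ C0 := by positivity
        have h4 : η * (x : ℝ) ^ C0 * x ≤ x := by
          calc η * (x : ℝ) ^ C0 * x ≤ η * (x : ℝ) ^ C0 * (x : ℝ) ^ 9 := mul_le_mul_of_nonneg_left h2 h3
            _ ≤ k := h1
            _ ≤ x := hxk2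
        have h5 : η * (x : ℝ) ^ C0 ≤ 1 := by
          by_contra hcon
          push Not at hcon
          nlinarith
        linarith) (fun p _ => by
        intro c d hcd
        rw [hg, hg, hh_per G P T p c d hcd]) (by
        intro p c
        rw [hg]
        split_ifs with hpx
        · rw [abs_mul, abs_mul, abs_of_pos hlam0]
          have h1 : |Real.log p| ≤ L := by
            rcases Nat.eq_zero_or_pos p with h0 | h0
            · rw [h0, Nat.cast_zero, Real.log_zero, abs_zero]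
              exact hL0.le
            · have hp1 : (1 : ℝ) ≤ p := by exact_mod_cast h0
              rw [abs_of_nonneg (Real.log_nonneg hp1), hL]
              exact Real.log_le_log (by linarith) (by exact_mod_cast hpx)
          calc lam * |Real.log p| * |hh G P T p c| ≤ lam * L * T :=
                mul_le_mul (mul_le_mul_of_nonneg_left h1 hlam0.le) (hh_abs G P hT0.le p c) (abs_nonneg _) (by positivity)
            _ = 1 := by rw [hlam]; field_simp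
        · simp) (by
        rw [hvrg]
        have h1 : lam ^ 2 * ((1 / 2) * N) ≤ lam ^ 2 * VT := mul_le_mul_of_nonneg_left hVN (sq_nonneg _)
        refine le_trans ?_ h1
        have e : lam ^ 2 * ((1 / 2) * N) = x / (2 * T ^ 2 * L) := by
          rw [hlam, hN]
          field_simp
        rw [e, le_div_iff₀ (by positivity)]
        have h2 : 2 * T ^ 2 * V0 * (1 + L) ^ 4 ≤ x := by
          refine le_trans ?_ hKx
          refine mul_le_mul_of_nonneg_right ?_ h4L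
          rw [hK]
          linarith
        have h3 : 2 * T ^ 2 * V0 * L ≤ 2 * T ^ 2 * V0 * (1 + L) ^ 4 := mul_le_mul_of_nonneg_left (by linarith) q3
        calc V0 * (2 * T ^ 2 * L) = 2 * T ^ 2 * V0 * L := by ring
          _ ≤ (x : ℝ) := h3.trans h2) t
    rw [hsqV] at h
    have hset : (bxx H).filter (fun n => ∑ p ∈ prs x, g p n - ∑ p ∈ prs x, av p (g p) ≤ t * (lam * sV)) =
        (bxx H).filter (fun c => X c ≤ t) := by
      apply filter_congr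
      intro c _
      rw [hgX, mul_comm t]
      have : 0 < lam * sV := by positivity
      exact mul_le_mul_iff_right₀ this
    rw [hset] at h
    exact h
  have hfin := cdf_perturb (bxx H) hbne X Y a a κ ha0 hXclt hmain2 u
  have hset : (bxx H).filter (fun c => ∑ p ∈ prs x, Real.log p * nag G P p c + r * ∑ p ∈ prs x, Real.log p ≤
      u * √(x * Real.log x)) = (bxx H).filter (fun c => Y c ≤ u) := by
    apply filter_congr
    intro c _
    rw [hY, div_le_iff₀ hsN0, hsN, hN, hL]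
  rw [hset]
  refine hfin.trans ?_
  have e : κ / a ^ 2 = a := by
    rw [hκ]
    field_simp
  rw [e]
  linarith

end Pool.Agent.L0h41.NG
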