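import Pool.Agent.L0h41.NG.M

set_option autoImplicit false

/-!
# Fibre averages of random families: fibrations with given sections
-/

namespace Pool.Agent.L0h41.NG

open Finset
open Pool.Agent.N368.TS Pool.Agent.L0h41.CL

variable {r : ℕ}

/-- the fixed part -/
noncomputable def GG (G : MvPolynomial (Fin 2) ℤ) (x t : ℤ) : ℤ := MvPolynomial.eval ![x, t] G

/-- the polynomial which vanishes at the sections -/
noncomputable def PP (e : Fin r → Polynomial ℤ) (x t : ℤ) : ℤ := ∏ i, (x - (e i).eval t)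

lemma mv_congr {n : ℕ} (f : MvPolynomial (Fin n) ℤ) (p : ℕ) {c d : Fin n → ℤ} (h : ∀ l, (p : ℤ) ∣ c l - d l) :
    (p : ℤ) ∣ MvPolynomial.eval c f - MvPolynomial.eval d f := by
  induction f using MvPolynomial.induction_on with
  | C z => simp
  | add f g hf hg =>
    rw [map_add, map_add]
    have e : MvPolynomial.eval c f + MvPolynomial.eval c g - (MvPolynomial.eval d f + MvPolynomial.eval d g) =
        (MvPolynomial.eval c f - MvPolynomial.eval d f) + (MvPolynomial.eval c g - MvPolynomial.eval d g) := by ring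
    rw [e]
    exact dvd_add hf hg
  | mul_X f i hf =>
    rw [map_mul, map_mul, MvPolynomial.eval_X, MvPolynomial.eval_X]
    have e : MvPolynomial.eval c f * c i - MvPolynomial.eval d f * d i =
        (MvPolynomial.eval c f - MvPolynomial.eval d f) * c i + MvPolynomial.eval d f * (c i - d i) := by ring
    rw [e]
    exact dvd_add (hf.mul_right _) ((h i).mul_left _)

lemma GG_per (G : MvPolynomial (Fin 2) ℤ) : Per2 (GG G) := by
  intro p x x' t t' h1 h2
  unfold GG
  apply mv_congr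
  intro l
  fin_cases l
  · exact h1
  · exact h2

/-- the value modulo `p` -/
noncomputable def ev (p : ℕ) (q : Polynomial ℤ) (t : ZMod p) : ZMod p := (q.map (Int.castRingHom (ZMod p))).eval t

lemma ev_cast (p : ℕ) (q : Polynomial ℤ) (t : ℤ) : ((q.eval t : ℤ) : ZMod p) = ev p q (t : ZMod p) := by
  unfold ev
  rw [Polynomial.eval_intCast_map]
  rfl

lemma PP_cast (p : ℕ) (e : Fin r → Polynomial ℤ) (x t : ℤ) :
    ((PP e x t : ℤ) : ZMod p) = ∏ i, ((x : ZMod p) - ev p (e i) (t : ZMod p)) := by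
  unfold PP
  rw [Int.cast_prod]
  refine prod_congr rfl fun i _ => ?_
  rw [Int.cast_sub, ev_cast]

lemma PP_per (e : Fin r → Polynomial ℤ) : Per2 (PP e) := by
  intro p x x' t t' h1 h2
  have e1 : (x' : ZMod p) = (x : ZMod p) := (ZMod.intCast_eq_intCast_iff_dvd_sub _ _ _).2 h1
  have e2 : (t' : ZMod p) = (t : ZMod p) := (ZMod.intCast_eq_intCast_iff_dvd_sub _ _ _).2 h2
  rw [← ZMod.intCast_eq_intCast_iff_dvd_sub, PP_cast, PP_cast, e1, e2]

lemma red_PP (p : ℕ) [Fact p.Prime] (e : Fin r → Polynomial ℤ) (x t : ZMod p) :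
    red p (PP e) x t = ∏ i, (x - ev p (e i) t) := by
  unfold red
  rw [PP_cast]
  refine prod_congr rfl fun i _ => ?_
  rw [Int.cast_natCast, Int.cast_natCast, ZMod.natCast_val, ZMod.natCast_val, ZMod.cast_id, ZMod.cast_id]

lemma red_PP_zero (p : ℕ) [Fact p.Prime] (e : Fin r → Polynomial ℤ) (x t : ZMod p) :
    red p (PP e) x t = 0 ↔ x ∈ univ.image (fun i => ev p (e i) t) := by
  rw [red_PP, prod_eq_zero_iff, mem_image]
  constructor
  · rintro ⟨i, hi, h⟩
    exact ⟨i, hi, (sub_eq_zero.1 h).symm⟩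
  · rintro ⟨i, hi, h⟩
    exact ⟨i, hi, sub_eq_zero.2 h.symm⟩

lemma nn_ge (p : ℕ) [Fact p.Prime] (e : Fin r → Polynomial ℤ) (t : ZMod p) : (p : ℝ) - r ≤ nn (red p (PP e)) t := by
  classical
  unfold nn
  have h1 : ∀ x : ZMod p, (if red p (PP e) x t = 0 then (0 : ℝ) else 1) =
      1 - if x ∈ univ.image (fun i => ev p (e i) t) then 1 else 0 := by
    intro x
    by_cases h : red p (PP e) x t = 0
    · rw [if_pos h, if_pos ((red_PP_zero p e x t).1 h), sub_self]
    · rw [if_neg h, if_neg (fun h2 => h ((red_PP_zero p e x t).2 h2)), sub_zero]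
  rw [sum_congr rfl fun x _ => h1 x, sum_sub_distrib, sum_const, card_univ, ZMod.card, nsmul_eq_mul, mul_one, sum_ite_mem,
    univ_inter, sum_const, nsmul_eq_mul, mul_one]
  have h2 : (univ.image (fun i => ev p (e i) t)).card ≤ r := card_image_le.trans (by simp)
  have h3 : ((univ.image (fun i => ev p (e i) t)).card : ℝ) ≤ r := by exact_mod_cast h2
  linarith

lemma red_GG (p : ℕ) [Fact p.Prime] {G : MvPolynomial (Fin 2) ℤ} {e f : Fin r → Polynomial ℤ}
    (hG : ∀ i, MvPolynomial.aeval ![e i, Polynomial.X] G = f i ^ 2) (i : Fin r) (t : ZMod p) :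
    red p (GG G) (ev p (e i) t) t = ev p (f i) t ^ 2 := by
  have h1 : ∀ T : ℤ, GG G ((e i).eval T) T = ((f i).eval T) ^ 2 := by
    intro T
    unfold GG
    have h2 := congrArg (Polynomial.eval T) (hG i)
    rw [Polynomial.eval_pow] at h2
    rw [← h2]
    have h3 : Polynomial.eval T (MvPolynomial.aeval ![e i, Polynomial.X] G) =
        MvPolynomial.eval (fun j => Polynomial.eval T ((![e i, Polynomial.X] : Fin 2 → Polynomial ℤ) j)) G := by
      rw [MvPolynomial.aeval_def]
      have h4 := MvPolynomial.map_eval₂Hom (algebraMap ℤ (Polynomial ℤ)) (![e i, Polynomial.X] : Fin 2 → Polynomial ℤ)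
        (Polynomial.evalRingHom T) G
      rw [MvPolynomial.coe_eval₂Hom, Polynomial.coe_evalRingHom] at h4
      rw [h4]
      unfold MvPolynomial.eval
      congr 2
      exact RingHom.ext_int _ _
    rw [h3]
    congr 2
    funext j
    fin_cases j
    · rfl
    · simp
  obtain ⟨T, hT⟩ : ∃ T : ℤ, ((T : ℤ) : ZMod p) = t := ⟨(t.val : ℤ), by simp⟩
  rw [← hT, ← ev_cast, ← red_eq p (GG_per G), h1, Int.cast_pow, ev_cast]

lemma chi_sq_mem {p : ℕ} [Fact p.Prime] (z : ZMod p) : 0 ≤ chi (z ^ 2) ∧ chi (z ^ 2) ≤ 1 := by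
  by_cases h : z = 0
  · rw [h, zero_pow (by norm_num), chi_zero]
    exact ⟨le_rfl, zero_le_one⟩
  · rw [chi_one_sq h]
    exact ⟨zero_le_one, le_rfl⟩

/-- the polynomial of the bad points -/
noncomputable def badP (e f : Fin r → Polynomial ℤ) : Polynomial ℤ :=
  (∏ i, f i) * ∏ ij ∈ univ.filter (fun ij : Fin r × Fin r => ij.1 ≠ ij.2), (e ij.1 - e ij.2)

lemma badP_ne {e f : Fin r → Polynomial ℤ} (he : Function.Injective e) (hf : ∀ i, f i ≠ 0) : badP e f ≠ 0 := by
  unfold badP
  refine mul_ne_zero (prod_ne_zero_iff.2 fun i _ => hf i) (prod_ne_zero_iff.2 fun ij hij => ?_)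
  rw [mem_filter] at hij
  exact sub_ne_zero.2 fun h => hij.2 (he h)

lemma ev_badP (p : ℕ) (e f : Fin r → Polynomial ℤ) (t : ZMod p) (h : ev p (badP e f) t ≠ 0) [Fact p.Prime] :
    (∀ i, ev p (f i) t ≠ 0) ∧ Function.Injective (fun i => ev p (e i) t) := by
  unfold badP ev at h
  rw [Polynomial.map_mul, Polynomial.eval_mul, Polynomial.map_prod, Polynomial.map_prod, Polynomial.eval_prod,
    Polynomial.eval_prod] at h
  obtain ⟨h1, h2⟩ := mul_ne_zero_iff.1 h
  rw [prod_ne_zero_iff] at h1 h2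
  refine ⟨fun i => h1 i (mem_univ _), ?_⟩
  intro i j hij
  by_contra hne
  have h3 := h2 (i, j) (mem_filter.2 ⟨mem_univ _, hne⟩)
  rw [Polynomial.map_sub, Polynomial.eval_sub] at h3
  exact h3 (sub_eq_zero.2 hij)

/-- the number of the bad points -/
lemma bad_card (Q : Polynomial ℤ) (hQ : Q ≠ 0) (p : ℕ) [Fact p.Prime] :
    ((univ : Finset (ZMod p)).filter (fun t => ev p Q t = 0)).card ≤ Q.natDegree + Q.leadingCoeff.natAbs := by
  classical
  by_cases h : Q.map (Int.castRingHom (ZMod p)) = 0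
  · have h1 : (p : ℤ) ∣ Q.leadingCoeff := by
      have h2 := congrArg (fun R : Polynomial (ZMod p) => R.coeff Q.natDegree) h
      simp only [Polynomial.coeff_map, Polynomial.coeff_zero] at h2
      rw [← ZMod.intCast_zmod_eq_zero_iff_dvd]
      exact h2
    have h3 : p ≤ Q.leadingCoeff.natAbs :=
      Nat.le_of_dvd (Int.natAbs_pos.2 (Polynomial.leadingCoeff_ne_zero.2 hQ)) (Int.natCast_dvd.1 h1)
    have h4 : ((univ : Finset (ZMod p)).filter (fun t => ev p Q t = 0)).card ≤ p := by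
      refine (card_filter_le _ _).trans ?_
      rw [card_univ, ZMod.card]
    omega
  · have h1 : (univ : Finset (ZMod p)).filter (fun t => ev p Q t = 0) ⊆
        (Q.map (Int.castRingHom (ZMod p))).roots.toFinset := by
      intro t ht
      rw [mem_filter] at ht
      rw [Multiset.mem_toFinset, Polynomial.mem_roots h]
      exact ht.2
    have h2 := card_le_card h1
    have h3 := Multiset.toFinset_card_le (Q.map (Int.castRingHom (ZMod p))).roots
    have h4 := Polynomial.card_roots' (Q.map (Int.castRingHom (ZMod p)))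
    have h5 := Polynomial.natDegree_map_le (f := Int.castRingHom (ZMod p)) (p := Q)
    omega

lemma mm_bounds (p : ℕ) [Fact p.Prime] {G : MvPolynomial (Fin 2) ℤ} {e f : Fin r → Polynomial ℤ}
    (hG : ∀ i, MvPolynomial.aeval ![e i, Polynomial.X] G = f i ^ 2) (t : ZMod p) :
    |mm (red p (GG G)) (red p (PP e)) t + r| ≤ if ev p (badP e f) t = 0 then (r : ℝ) else 0 := by
  classical
  obtain ⟨Z, hZ⟩ : ∃ Z, Z = univ.image (fun i => ev p (e i) t) := ⟨_, rfl⟩
  have h1 : mm (red p (GG G)) (red p (PP e)) t = -∑ x ∈ Z, chi (red p (GG G) x t) := by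
    unfold mm
    congr 1
    have h2 : ∀ x : ZMod p, (if red p (PP e) x t = 0 then chi (red p (GG G) x t) else 0) =
        if x ∈ Z then chi (red p (GG G) x t) else 0 := by
      intro x
      by_cases h : red p (PP e) x t = 0
      · rw [if_pos h, if_pos (by rw [hZ]; exact (red_PP_zero p e x t).1 h)]
      · rw [if_neg h, if_neg (by rw [hZ]; exact fun h2 => h ((red_PP_zero p e x t).2 h2))]
    rw [sum_congr rfl fun x _ => h2 x, sum_ite_mem, univ_inter]
  have hval : ∀ x ∈ Z, 0 ≤ chi (red p (GG G) x t) ∧ chi (red p (GG G) x t) ≤ 1 := by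
    intro x hx
    rw [hZ, mem_image] at hx
    obtain ⟨i, _, rfl⟩ := hx
    rw [red_GG p hG]
    exact chi_sq_mem _
  have hcard : (Z.card : ℝ) ≤ r := by
    have h2 : Z.card ≤ r := by
      rw [hZ]
      exact card_image_le.trans (by simp)
    exact_mod_cast h2
  rw [h1]
  split_ifs with h
  · rw [abs_le]
    have h3 : 0 ≤ ∑ x ∈ Z, chi (red p (GG G) x t) := sum_nonneg fun x hx => (hval x hx).1
    have h4 : ∑ x ∈ Z, chi (red p (GG G) x t) ≤ Z.card := by
      refine (sum_le_sum fun x hx => (hval x hx).2).trans (le_of_eq ?_)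
      rw [sum_const, nsmul_eq_mul, mul_one]
    constructor <;> linarith
  · obtain ⟨h3, h4⟩ := ev_badP p e f t h
    have h5 : ∑ x ∈ Z, chi (red p (GG G) x t) = r := by
      rw [hZ, sum_image (fun i _ j _ hij => h4 hij)]
      have h6 : ∀ i ∈ (univ : Finset (Fin r)), chi (red p (GG G) (ev p (e i) t) t) = 1 := by
        intro i _
        rw [red_GG p hG]
        exact chi_one_sq (h3 i)
      rw [sum_congr rfl h6, sum_const, card_univ, Fintype.card_fin, nsmul_eq_mul, mul_one]
    rw [h5]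
    simp

theorem dat_of_sections {k₁ k₂ : ℕ} (hk₁ : 4 ≤ k₁) (hk₂ : 4 ≤ k₂) {G : MvPolynomial (Fin 2) ℤ} {e f : Fin r → Polynomial ℤ}
    (he : Function.Injective e) (hf : ∀ i, f i ≠ 0)
    (hG : ∀ i, MvPolynomial.aeval ![e i, Polynomial.X] G = f i ^ 2) :
    ∃ C₁ : ℝ, Dat (GG G) (PP e) r C₁ k₁ k₂ := by
  classical
  obtain ⟨D, hD⟩ : ∃ D : ℕ, D = (badP e f).natDegree + (badP e f).leadingCoeff.natAbs := ⟨_, rfl⟩
  refine ⟨r * D + 2 * r, GG_per G, PP_per e, fun p _ t => nn_ge p e t, ?_⟩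
  intro p hp
  have hf' : Fact p.Prime := ⟨hp⟩
  have hp0 : (0 : ℝ) < p := by exact_mod_cast hp.pos
  have hr0 : (0 : ℝ) ≤ r := Nat.cast_nonneg _
  have hD0 : (0 : ℝ) ≤ D := Nat.cast_nonneg _
  by_cases hp2 : p = 2
  · subst hp2
    have e1 : nag (k₁ := k₁) (k₂ := k₂) (GG G) (PP e) 2 = fun _ => 0 := funext fun c => nag_two _ _ c
    have e2 : av 2 (nag (k₁ := k₁) (k₂ := k₂) (GG G) (PP e) 2) = 0 := by
      rw [e1]
      unfold av
      simp
    rw [e2, zero_add, abs_of_nonneg hr0]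
    push_cast
    have : (0 : ℝ) ≤ r * D := by positivity
    linarith
  · rw [av_nag hk₁ hk₂ p hp2 (GG_per G) (PP_per e)]
    have e1 : (∑ t : ZMod p, mm (red p (GG G)) (red p (PP e)) t) / (p : ℝ) + r =
        (∑ t : ZMod p, (mm (red p (GG G)) (red p (PP e)) t + r)) / p := by
      rw [sum_add_distrib, sum_const, card_univ, ZMod.card, nsmul_eq_mul, add_div, mul_div_cancel_left₀ _ hp0.ne']
    rw [e1, abs_div, abs_of_pos hp0]
    refine div_le_div_of_nonneg_right ?_ hp0.le
    refine (abs_sum_le_sum_abs _ _).trans ((sum_le_sum fun t _ => mm_bounds p hG t).trans ?_)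
    rw [← sum_filter, sum_const, nsmul_eq_mul]
    have h1 := bad_card (badP e f) (badP_ne he hf) p
    rw [← hD] at h1
    have h2 : (((univ : Finset (ZMod p)).filter (fun t => ev p (badP e f) t = 0)).card : ℝ) ≤ D := by exact_mod_cast h1
    have h3 := mul_le_mul_of_nonneg_right h2 hr0
    have : (0 : ℝ) ≤ 2 * r := by positivity
    linarith

end Pool.Agent.L0h41.NG
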